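import Mathlib
import Pool.Agent.H843R3.Had2.Main

set_option autoImplicit false
set_option maxHeartbeats 1000000
set_option linter.unusedSectionVars false
set_option linter.unusedVariables false

/-!
# Convex bodies invariant under all permutations of the coordinates

No central symmetry is assumed. `PBody K` is the hypothesis, `Lev K L H` says that the sum of the
coordinates takes exactly the values between `L` and `H` on `K`. The elementary facts are adapted
from `Pool.Agent.H843R3.Had2`, where central symmetry is assumed.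
-/

open Set Topology
open Pool.Agent.H843R3.Had2

namespace Pool.Agent.K3h51.PI

variable {α : Type*} [Fintype α] [DecidableEq α]

/-- A convex body invariant under permutations of the coordinates. -/
structure PBody (K : Set (Option α → ℝ)) : Prop where
  conv : Convex ℝ K
  comp : IsCompact K
  int : (interior K).Nonempty
  perm : ∀ (σ : Equiv.Perm (Option α)) (x : Option α → ℝ), x ∈ K → (fun i => x (σ i)) ∈ K
  card : 1 ≤ Fintype.card α

variable {K : Set (Option α → ℝ)}

theorem perm_int (hp : ∀ (σ : Equiv.Perm (Option α)) (x : Option α → ℝ), x ∈ K →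
    (fun i => x (σ i)) ∈ K) (σ : Equiv.Perm (Option α)) {x : Option α → ℝ}
    (hx : x ∈ interior K) : (fun i => x (σ i)) ∈ interior K := by
  set e : (Option α → ℝ) ≃ₜ (Option α → ℝ) :=
    { toFun := fun x i => x (σ i)
      invFun := fun x i => x (σ.symm i)
      left_inv := fun x => by ext i; simp
      right_inv := fun x => by ext i; simp
      continuous_toFun := by fun_prop
      continuous_invFun := by fun_prop } with he
  have h1 : e '' (interior K) ⊆ interior K := by
    refine interior_maximal ?_ (e.isOpenMap _ isOpen_interior)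
    rintro _ ⟨y, hy, rfl⟩
    exact hp σ y (interior_subset hy)
  exact h1 ⟨x, hx, rfl⟩

/-- averaging over the permutations of a block -/
theorem avg_block {C : Set (Option α → ℝ)} (hC : Convex ℝ C)
    (hp : ∀ (σ : Equiv.Perm (Option α)) (x : Option α → ℝ), x ∈ C → (fun i => x (σ i)) ∈ C)
    (S : Finset (Option α)) {x : Option α → ℝ} (hx : x ∈ C) :
    (fun i => if i ∈ S then (∑ j ∈ S, x j) / S.card else x i) ∈ C := by
  classical
  set N : ℝ := (Fintype.card (Equiv.Perm {i // i ∈ S}) : ℝ) with hN
  have hN0 : 0 < N := by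
    rw [hN]
    exact_mod_cast Fintype.card_pos
  have h1 : ∑ σ : Equiv.Perm {i // i ∈ S},
      (1 / N) • (fun i => x ((Equiv.Perm.ofSubtype σ) i)) ∈ C := by
    refine hC.sum_mem (fun _ _ => by positivity) ?_ (fun σ _ => hp _ x hx)
    rw [Finset.sum_const, Finset.card_univ, nsmul_eq_mul]
    field_simp
    exact hN.symm
  have h2 : ∑ σ : Equiv.Perm {i // i ∈ S},
      (1 / N) • (fun i => x ((Equiv.Perm.ofSubtype σ) i)) =
      (fun i => if i ∈ S then (∑ j ∈ S, x j) / S.card else x i) := by
    rw [← Finset.smul_sum]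
    ext i
    rw [Pi.smul_apply, Finset.sum_apply, smul_eq_mul]
    by_cases hi : i ∈ S
    · rw [if_pos hi]
      have hS0 : (0 : ℝ) < S.card := by
        exact_mod_cast Finset.card_pos.2 ⟨i, hi⟩
      have e3 := perm_sum (fun b : {i // i ∈ S} => x b) ⟨i, hi⟩
      have e5 : ∑ σ : Equiv.Perm {i // i ∈ S}, x ((Equiv.Perm.ofSubtype σ) i) =
          ∑ σ : Equiv.Perm {i // i ∈ S}, x (σ ⟨i, hi⟩) := by
        refine Finset.sum_congr rfl fun σ _ => ?_
        rw [Equiv.Perm.ofSubtype_apply_of_mem σ hi]
      rw [e5]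
      rw [← hN, Fintype.card_coe] at e3
      have e7 : ∑ b : {i // i ∈ S}, x b = ∑ j ∈ S, x j := Finset.sum_coe_sort S x
      rw [e7] at e3
      have e6 : ∑ σ : Equiv.Perm {i // i ∈ S}, x (σ ⟨i, hi⟩) =
          N * (∑ j ∈ S, x j) / S.card := by
        rw [eq_div_iff hS0.ne', mul_comm]
        exact e3
      rw [e6]
      field_simp
    · rw [if_neg hi]
      have e5 : ∑ σ : Equiv.Perm {i // i ∈ S}, x ((Equiv.Perm.ofSubtype σ) i) =
          ∑ σ : Equiv.Perm {i // i ∈ S}, x i := by
        refine Finset.sum_congr rfl fun σ _ => ?_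
        rw [Equiv.Perm.ofSubtype_apply_of_not_mem σ hi]
      rw [e5, Finset.sum_const, Finset.card_univ, nsmul_eq_mul, ← hN]
      field_simp
  rw [← h2]
  exact h1

/-- averaging over the permutations fixing `none` -/
theorem avg_gen {C : Set (Option α → ℝ)} (hC : Convex ℝ C)
    (hp : ∀ (σ : Equiv.Perm (Option α)) (x : Option α → ℝ), x ∈ C → (fun i => x (σ i)) ∈ C)
    (hd : 1 ≤ Fintype.card α) {x : Option α → ℝ} (hx : x ∈ C) : P α (Sh x) ∈ C := by
  have hd0 : (0 : ℝ) < Fintype.card α := by exact_mod_cast hd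
  set S : Finset (Option α) := Finset.univ.map Function.Embedding.some with hS
  have h1 := avg_block hC hp S hx
  have h2 : P α (Sh x) = (fun i => if i ∈ S then (∑ j ∈ S, x j) / S.card else x i) := by
    have hSc : (S.card : ℝ) = Fintype.card α := by
      rw [hS, Finset.card_map, Finset.card_univ]
    have hSs : ∑ j ∈ S, x j = ∑ a : α, x (some a) := by
      rw [hS, Finset.sum_map]
      rfl
    ext i
    cases i with
    | none =>
      rw [P_Sh_none, if_neg]
      rw [hS]
      simp
    | some a =>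
      rw [if_pos (by rw [hS]; simp), P_some, Sh, hSc, hSs, Fintype.sum_option]
      simp only
      field_simp
      ring
  rw [h2]
  exact h1

theorem avg_i_gen {C : Set (Option α → ℝ)} (hC : Convex ℝ C)
    (hp : ∀ (σ : Equiv.Perm (Option α)) (x : Option α → ℝ), x ∈ C → (fun i => x (σ i)) ∈ C)
    (hd : 1 ≤ Fintype.card α) {x : Option α → ℝ} (hx : x ∈ C) (i : Option α) :
    P α (x i - (∑ j, x j) / (Fintype.card α + 1), ∑ j, x j) ∈ C := by
  have h1 := avg_gen hC hp hd (hp (Equiv.swap none i) x hx)
  have h2 : Sh (fun j => x (Equiv.swap none i j)) =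
      (x i - (∑ j, x j) / (Fintype.card α + 1), ∑ j, x j) := by
    unfold Sh
    rw [Equiv.sum_comp (Equiv.swap none i) x]
    simp only [Equiv.swap_apply_left]
  rwa [h2] at h1

/-- full average -/
theorem avg_all {C : Set (Option α → ℝ)} (hC : Convex ℝ C)
    (hp : ∀ (σ : Equiv.Perm (Option α)) (x : Option α → ℝ), x ∈ C → (fun i => x (σ i)) ∈ C)
    {x : Option α → ℝ} (hx : x ∈ C) : P α (0, ∑ i, x i) ∈ C := by
  have h1 := avg_block hC hp Finset.univ hx
  have h2 : P α (0, ∑ i, x i) = (fun i => if i ∈ (Finset.univ : Finset (Option α)) then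
      (∑ j ∈ Finset.univ, x j) / (Finset.univ : Finset (Option α)).card else x i) := by
    ext i
    rw [if_pos (Finset.mem_univ i), Finset.card_univ, Fintype.card_option]
    cases i with
    | none => rw [P_none]; push_cast; ring
    | some a => rw [P_some]; push_cast; ring
  rw [h2]
  exact h1

theorem PBody.avg (h : PBody K) {x : Option α → ℝ} (hx : x ∈ K) : P α (Sh x) ∈ K :=
  avg_gen h.conv h.perm h.card hx

theorem PBody.avg_i (h : PBody K) {x : Option α → ℝ} (hx : x ∈ K) (i : Option α) :
    (x i - (∑ j, x j) / (Fintype.card α + 1), ∑ j, x j) ∈ Qs K :=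
  avg_i_gen h.conv h.perm h.card hx i

theorem PBody.avg_c (h : PBody K) {x : Option α → ℝ} (hx : x ∈ K) :
    P α (0, ∑ i, x i) ∈ K :=
  avg_all h.conv h.perm hx

theorem PBody.Qs_eq (h : PBody K) : Qs K = Sh '' K := by
  ext q
  constructor
  · intro hq
    exact ⟨P α q, hq, Sh_P h.card q⟩
  · rintro ⟨x, hx, rfl⟩
    exact h.avg hx

theorem PBody.Q_conv (h : PBody K) : Convex ℝ (Qs K) := h.conv.linear_preimage (P α)

theorem PBody.Q_comp (h : PBody K) : IsCompact (Qs K) := by
  rw [h.Qs_eq]
  exact h.comp.image Sh_cont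

theorem PBody.Q_int (h : PBody K) {q : ℝ × ℝ} (hq : P α q ∈ interior K) :
    q ∈ interior (Qs K) := by
  have h1 : (P α) ⁻¹' (interior K) ⊆ interior (Qs K) :=
    interior_maximal (preimage_mono interior_subset) (isOpen_interior.preimage P_cont)
  exact h1 hq

theorem PBody.P_int (h : PBody K) {q : ℝ × ℝ} (hq : q ∈ interior (Qs K)) :
    P α q ∈ interior K := by
  obtain ⟨y, hy⟩ := h.int
  have h0 : P α (0, ∑ i, y i) ∈ interior K :=
    avg_all h.conv.interior (fun σ x hx => perm_int h.perm σ hx) hy
  set q0 : ℝ × ℝ := (0, ∑ i, y i) with hq0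
  obtain ⟨ε, hε, h1⟩ := Co.of_interior hq (q - q0)
  have h3 : P α (q + ε • (q - q0)) ∈ K := by
    have : q + ε • (q - q0) ∈ Qs K := interior_subset h1
    exact this
  have h4 := h.conv.combo_self_interior_mem_interior h3 h0 (a := 1 / (1 + ε))
    (b := ε / (1 + ε)) (by positivity) (by positivity) (by field_simp)
  have h5 : (1 / (1 + ε)) • P α (q + ε • (q - q0)) + (ε / (1 + ε)) • P α q0 = P α q := by
    rw [← map_smul, ← map_smul, ← map_add]
    congr 1
    have h6 : (1 + ε) ≠ 0 := by positivity
    ext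
    · simp only [Prod.fst_add, Prod.smul_fst, Prod.fst_sub, smul_eq_mul]
      field_simp
      ring
    · simp only [Prod.snd_add, Prod.smul_snd, Prod.snd_sub, smul_eq_mul]
      field_simp
      ring
  rwa [h5] at h4

theorem PBody.Q_opp (h : PBody K) {q : ℝ × ℝ} (hq : q ∈ Qs K) :
    (-q.1 / (Fintype.card α : ℝ), q.2) ∈ Qs K := by
  have hα := h.card
  obtain ⟨a⟩ : Nonempty α := Fintype.card_pos_iff.1 hα
  have h1 := h.avg_i (x := P α q) hq (some a)
  rw [sum_P hα, P_some, add_sub_cancel_right] at h1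
  exact h1

theorem PBody.Q_z (h : PBody K) : ∀ q ∈ Qs K, ((0 : ℝ), q.2) ∈ Qs K := by
  intro q hq
  have h1 := h.avg_c (x := P α q) hq
  rwa [sum_P h.card] at h1

/-- a swap -/
theorem PBody.swap (h : PBody K) {x : Option α → ℝ} (hx : x ∈ K) {a b : Option α}
    (hab : x b < x a) : Cn K x (Pi.single b 1 - Pi.single a 1) := by
  refine ⟨x a - x b, by linarith, ?_⟩
  have h1 := h.perm (Equiv.swap a b) x hx
  have h2 : x + (x a - x b) • (Pi.single b (1 : ℝ) - Pi.single a (1 : ℝ)) =
      fun i => x (Equiv.swap a b i) := by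
    have hne : a ≠ b := by rintro rfl; exact lt_irrefl _ hab
    ext i
    simp only [Pi.add_apply, Pi.smul_apply, Pi.sub_apply, smul_eq_mul]
    by_cases hia : i = a
    · subst hia
      rw [Equiv.swap_apply_left, Pi.single_eq_same, Pi.single_eq_of_ne hne]
      ring
    · by_cases hib : i = b
      · subst hib
        rw [Equiv.swap_apply_right, Pi.single_eq_same, Pi.single_eq_of_ne hia]
        ring
      · rw [Equiv.swap_apply_of_ne_of_ne hia hib, Pi.single_eq_of_ne hib, Pi.single_eq_of_ne hia]
        ring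
  rw [h2]
  exact h1

/-- transport of mass from larger coordinates to smaller coordinates -/
theorem PBody.transport (h : PBody K) {x : Option α → ℝ} (hx : x ∈ K) (v : Option α → ℝ)
    (hv : ∑ i, v i = 0) (hvx : ∀ a b, v a < 0 → 0 < v b → x b < x a) : Cn K x v := by
  set n : Option α → ℝ := fun i => max (-v i) 0 with hn
  set p : Option α → ℝ := fun i => max (v i) 0 with hp
  have hpn : ∀ i, v i = p i - n i := by
    intro i
    simp only [hn, hp]
    rcases le_total (v i) 0 with h1 | h1
    · rw [max_eq_right h1, max_eq_left (by linarith)]; ring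
    · rw [max_eq_left h1, max_eq_right (by linarith)]; ring
  have hn0 : ∀ i, 0 ≤ n i := fun i => le_max_right _ _
  have hp0 : ∀ i, 0 ≤ p i := fun i => le_max_right _ _
  have hsum : ∑ i, p i = ∑ i, n i := by
    have : ∑ i, (p i - n i) = 0 := by
      rw [← hv]
      exact Finset.sum_congr rfl fun i _ => (hpn i).symm
    rw [Finset.sum_sub_distrib] at this
    linarith
  set M := ∑ i, n i with hM
  have hM0 : 0 ≤ M := Finset.sum_nonneg fun i _ => hn0 i
  rcases hM0.eq_or_lt with h0 | h0
  · have h1 : ∀ i, n i = 0 := fun i =>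
      (Finset.sum_eq_zero_iff_of_nonneg (fun i _ => hn0 i)).1 (hM.symm.trans h0.symm) i
        (Finset.mem_univ _)
    have h2 : ∀ i, p i = 0 := fun i =>
      (Finset.sum_eq_zero_iff_of_nonneg (fun i _ => hp0 i)).1 (hsum.trans h0.symm) i
        (Finset.mem_univ _)
    have h3 : v = 0 := by
      ext i
      rw [hpn, h1, h2]
      simp
    rw [h3]
    exact Cn.zero hx
  · have h1 : v = ∑ a, ∑ b, (n a * p b / M) • (Pi.single b (1 : ℝ) - Pi.single a (1 : ℝ)) := by
      ext i
      simp only [Finset.sum_apply, Pi.smul_apply, Pi.sub_apply, smul_eq_mul, mul_sub,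
        Finset.sum_sub_distrib]
      have e1 : ∑ a, ∑ b, n a * p b / M * (Pi.single b (1 : ℝ) : Option α → ℝ) i = p i := by
        have : ∀ a, ∑ b, n a * p b / M * (Pi.single b (1 : ℝ) : Option α → ℝ) i =
            n a * p i / M := by
          intro a
          rw [Finset.sum_eq_single i]
          · simp
          · intro b _ hb
            rw [Pi.single_eq_of_ne (Ne.symm hb), mul_zero]
          · intro h; exact absurd (Finset.mem_univ _) h
        simp only [this]
        rw [← Finset.sum_div, ← Finset.sum_mul, ← hM]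
        field_simp
      have e2 : ∑ a, ∑ b, n a * p b / M * (Pi.single a (1 : ℝ) : Option α → ℝ) i = n i := by
        rw [Finset.sum_eq_single i]
        · simp only [Pi.single_eq_same, mul_one]
          rw [← Finset.sum_div, ← Finset.mul_sum, hsum]
          field_simp
        · intro a _ ha
          simp only [Pi.single_eq_of_ne (Ne.symm ha), mul_zero, Finset.sum_const_zero]
        · intro h; exact absurd (Finset.mem_univ _) h
      rw [e1, e2]
      exact hpn i
    rw [h1]
    refine Cn.sum h.conv hx _ _ fun a _ => Cn.sum h.conv hx _ _ fun b _ => ?_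
    rcases (hn0 a).eq_or_lt with ha | ha
    · rw [← ha, zero_mul, zero_div, zero_smul]
      exact Cn.zero hx
    rcases (hp0 b).eq_or_lt with hb | hb
    · rw [← hb, mul_zero, zero_div, zero_smul]
      exact Cn.zero hx
    have ha' : v a < 0 := by
      by_contra hcon
      have : n a = 0 := max_eq_right (by linarith)
      linarith
    have hb' : 0 < v b := by
      by_contra hcon
      have : p b = 0 := max_eq_right (by linarith)
      linarith
    exact (h.swap hx (hvx a b ha' hb')).smul hx (by positivity)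

/-- The levels of `K`. -/
structure Lev (K : Set (Option α → ℝ)) (L H : ℝ) : Prop where
  lt : L < H
  lo : ∀ x ∈ K, L ≤ ∑ i, x i
  hi : ∀ x ∈ K, ∑ i, x i ≤ H
  memL : P α (0, L) ∈ K
  memH : P α (0, H) ∈ K

theorem PBody.lev (h : PBody K) : ∃ L H : ℝ, Lev K L H := by
  obtain ⟨y, hy⟩ := h.int
  have hne : K.Nonempty := ⟨y, interior_subset hy⟩
  have hcont : ContinuousOn (fun x : Option α → ℝ => ∑ i, x i) K := by fun_prop
  obtain ⟨x1, hx1, hmax⟩ := h.comp.exists_isMaxOn hne hcont
  obtain ⟨x2, hx2, hmin⟩ := h.comp.exists_isMinOn hne hcont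
  refine ⟨∑ i, x2 i, ∑ i, x1 i, ?_, fun x hx => hmin hx, fun x hx => hmax hx,
    h.avg_c hx2, h.avg_c hx1⟩
  obtain ⟨ε, hε, h1⟩ := Co.of_interior hy (P α (0, 1))
  have h2 : ∑ i, (y + ε • P α (0, 1)) i ≤ ∑ i, x1 i := hmax (interior_subset h1)
  have h3 : ∑ i, x2 i ≤ ∑ i, y i := hmin (interior_subset hy)
  simp only [Pi.add_apply, Pi.smul_apply, smul_eq_mul, Finset.sum_add_distrib] at h2
  rw [← Finset.mul_sum, sum_P h.card] at h2
  simp only [mul_one] at h2
  linarith

theorem Lev.axis {L H : ℝ} (hl : Lev K L H) (h : PBody K) {s : ℝ} (h1 : L < s) (h2 : s < H) :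
    P α (0, s) ∈ interior K := by
  obtain ⟨y, hy⟩ := h.int
  have h0 : P α (0, ∑ i, y i) ∈ interior K :=
    avg_all h.conv.interior (fun σ x hx => perm_int h.perm σ hx) hy
  have hL := hl.lo _ (interior_subset hy)
  have hH := hl.hi _ (interior_subset hy)
  set t : ℝ := ∑ i, y i with ht
  rcases lt_trichotomy s t with h3 | h3 | h3
  · have h5 : 0 < t - L := by linarith
    have h4 := h.conv.combo_self_interior_mem_interior hl.memL h0 (a := (t - s) / (t - L))
      (b := (s - L) / (t - L)) (div_nonneg (by linarith) h5.le) (div_pos (by linarith) h5)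
      (by field_simp; ring)
    have h6 : ((t - s) / (t - L)) • P α (0, L) + ((s - L) / (t - L)) • P α (0, t) =
        P α (0, s) := by
      rw [← map_smul, ← map_smul, ← map_add]
      congr 1
      ext
      · simp
      · simp only [Prod.snd_add, Prod.smul_snd, smul_eq_mul]
        field_simp
        ring
    rwa [h6] at h4
  · rw [h3]; exact h0
  · have h5 : 0 < H - t := by linarith
    have h4 := h.conv.combo_self_interior_mem_interior hl.memH h0 (a := (s - t) / (H - t))
      (b := (H - s) / (H - t)) (div_nonneg (by linarith) h5.le) (div_pos (by linarith) h5)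
      (by field_simp; ring)
    have h6 : ((s - t) / (H - t)) • P α (0, H) + ((H - s) / (H - t)) • P α (0, t) =
        P α (0, s) := by
      rw [← map_smul, ← map_smul, ← map_add]
      congr 1
      ext
      · simp
      · simp only [Prod.snd_add, Prod.smul_snd, smul_eq_mul]
        field_simp
        ring
    rwa [h6] at h4

theorem PBody.bound (h : PBody K) : ∃ R : ℝ, 0 ≤ R ∧ ∀ y ∈ K, ∀ i, |y i| ≤ R := by
  obtain ⟨R, hR⟩ := h.comp.isBounded.exists_norm_le
  obtain ⟨y, hy⟩ := h.int
  exact ⟨R, (norm_nonneg _).trans (hR y (interior_subset hy)),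
    fun y hy i => (norm_le_pi_norm y i).trans (hR y hy)⟩

/-! ### the reflection -/

/-- The reflected body. -/
def ng (K : Set (Option α → ℝ)) : Set (Option α → ℝ) := {x | -x ∈ K}

omit [Fintype α] [DecidableEq α] in
theorem mem_ng {x : Option α → ℝ} : x ∈ ng K ↔ -x ∈ K := Iff.rfl

omit [Fintype α] [DecidableEq α] in
theorem int_ng {x : Option α → ℝ} : x ∈ interior (ng K) ↔ -x ∈ interior K := by
  have : (Homeomorph.neg (Option α → ℝ)) ⁻¹' (interior K) =
      interior ((Homeomorph.neg (Option α → ℝ)) ⁻¹' K) :=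
    (Homeomorph.neg (Option α → ℝ)).preimage_interior K
  have h2 : (Homeomorph.neg (Option α → ℝ)) ⁻¹' K = ng K := rfl
  rw [h2] at this
  rw [← this]
  rfl

theorem PBody.neg (h : PBody K) : PBody (ng K) := by
  refine ⟨?_, ?_, ?_, ?_, h.card⟩
  · intro x hx y hy a b ha hb hab
    have h1 := h.conv (mem_ng.1 hx) (mem_ng.1 hy) ha hb hab
    rw [mem_ng]
    have h2 : -(a • x + b • y) = a • -x + b • -y := by module
    rw [h2]
    exact h1
  · have h1 := h.comp.image (f := fun x : Option α → ℝ => -x) (by fun_prop)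
    have h2 : (fun x : Option α → ℝ => -x) '' K = ng K := by
      ext x
      constructor
      · rintro ⟨y, hy, rfl⟩
        rw [mem_ng, neg_neg]
        exact hy
      · intro hx
        exact ⟨-x, hx, neg_neg x⟩
    rwa [h2] at h1
  · obtain ⟨y, hy⟩ := h.int
    refine ⟨-y, ?_⟩
    rw [int_ng, neg_neg]
    exact hy
  · intro σ x hx
    have h1 := h.perm σ _ (mem_ng.1 hx)
    exact h1

theorem Lev.neg {L H : ℝ} (hl : Lev K L H) : Lev (ng K) (-H) (-L) := by
  have hP : ∀ s : ℝ, -P α (0, -s) = P α (0, s) := by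
    intro s
    rw [← map_neg]
    congr 1
    ext <;> simp
  refine ⟨by linarith [hl.lt], ?_, ?_, ?_, ?_⟩
  · intro x hx
    have h1 := hl.hi _ (mem_ng.1 hx)
    simp only [Pi.neg_apply, Finset.sum_neg_distrib] at h1
    linarith
  · intro x hx
    have h1 := hl.lo _ (mem_ng.1 hx)
    simp only [Pi.neg_apply, Finset.sum_neg_distrib] at h1
    linarith
  · rw [mem_ng, hP]
    exact hl.memH
  · rw [mem_ng, hP]
    exact hl.memL

omit [DecidableEq α] in
theorem mem_Qs_ng {q : ℝ × ℝ} : q ∈ Qs (ng K) ↔ -q ∈ Qs K := by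
  show P α q ∈ ng K ↔ P α (-q) ∈ K
  rw [mem_ng, map_neg]

omit [DecidableEq α] in
theorem Co_ng {x v : Option α → ℝ} (h : Co (ng K) (-x) v) : Co K x (-v) := by
  obtain ⟨ε, hε, h1⟩ := h
  refine ⟨ε, hε, ?_⟩
  rw [int_ng, neg_add, neg_neg, ← smul_neg] at h1
  exact h1

omit [DecidableEq α] in
theorem Co_ng' {x v : Option α → ℝ} (h : Co K (-x) v) : Co (ng K) x (-v) := by
  obtain ⟨ε, hε, h1⟩ := h
  refine ⟨ε, hε, ?_⟩
  rw [int_ng]
  have h2 : -(x + ε • -v) = -x + ε • v := by module
  rw [h2]
  exact h1

end Pool.Agent.K3h51.PI
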