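import Mathlib
import Pool.Agent.H843R3.Had2.Planar

set_option autoImplicit false
set_option maxHeartbeats 1000000
set_option linter.unusedSectionVars false
set_option linter.unusedVariables false

/-!
# Illuminating a compact part of a planar convex body by two directions

`Q` is a planar convex body between the levels `L` and `H`, each of its horizontal sections,
including the lowest and the highest one, is a proper interval with `0` in its interior. `W ⊆ Q` is
compact, its points which are right (left) ends of their sections satisfy `κ * b ≤ a`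
(`κ' * a ≤ b`), `[-a, b]` being the section, where `κ * κ' > 1`. Under the condition `key` two
directions illuminate `W`.
-/

open Set Topology
open Pool.Agent.H843R3.Had2

namespace Pool.Agent.K3h51.PI

/-- A planar convex body between two levels. -/
structure PQ (Q : Set (ℝ × ℝ)) (L H : ℝ) : Prop where
  conv : Convex ℝ Q
  comp : IsCompact Q
  lt : L < H
  lo : ∀ q ∈ Q, L ≤ q.2
  hi : ∀ q ∈ Q, q.2 ≤ H
  axis : ∀ s, L < s → s < H → ((0 : ℝ), s) ∈ interior Q
  pos : ∀ s, L ≤ s → s ≤ H → ∃ A : ℝ, 0 < A ∧ (A, s) ∈ Q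
  neg : ∀ s, L ≤ s → s ≤ H → ∃ A : ℝ, A < 0 ∧ (A, s) ∈ Q

/-- right end of a section -/
def RE (Q : Set (ℝ × ℝ)) (q : ℝ × ℝ) : Prop := ∀ A : ℝ, (A, q.2) ∈ Q → A ≤ q.1

/-- left end of a section -/
def LE (Q : Set (ℝ × ℝ)) (q : ℝ × ℝ) : Prop := ∀ A : ℝ, (A, q.2) ∈ Q → q.1 ≤ A

variable {Q W : Set (ℝ × ℝ)} {L H : ℝ}

theorem RE.pos (h : PQ Q L H) {q : ℝ × ℝ} (hq : q ∈ Q) (hr : RE Q q) : 0 < q.1 := by
  obtain ⟨A, hA, h1⟩ := h.pos q.2 (h.lo q hq) (h.hi q hq)
  exact lt_of_lt_of_le hA (hr A h1)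

theorem LE.neg (h : PQ Q L H) {q : ℝ × ℝ} (hq : q ∈ Q) (hr : LE Q q) : q.1 < 0 := by
  obtain ⟨A, hA, h1⟩ := h.neg q.2 (h.lo q hq) (h.hi q hq)
  exact lt_of_le_of_lt (hr A h1) hA

theorem left_dir (h : PQ Q L H) {q : ℝ × ℝ} (hq : q ∈ Q) (hn : ¬LE Q q) {R ε : ℝ}
    (hR : |q.1| ≤ R) (hL : L < q.2 + ε) (hH : q.2 + ε < H) : Co Q q (-R, ε) := by
  unfold LE at hn
  push Not at hn
  obtain ⟨A, hA, hAq⟩ := hn
  have hcn : Cn Q q ((-1 : ℝ), (0 : ℝ)) := by
    refine ⟨q.1 - A, by linarith, ?_⟩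
    have : q + (q.1 - A) • ((-1 : ℝ), (0 : ℝ)) = (A, q.2) := by
      ext
      · simp
      · simp
    rw [this]
    exact hA
  rw [abs_le] at hR
  have h3 := Co.of h.conv (hcn.smul hq (c := R - q.1) (by linarith)) (h.axis _ hL hH)
  have h4 : (R - q.1) • (((-1 : ℝ), (0 : ℝ)) : ℝ × ℝ) + ((0, q.2 + ε) - q) = (-R, ε) := by
    ext
    · simp; ring
    · simp
  rwa [h4] at h3

theorem right_dir (h : PQ Q L H) {q : ℝ × ℝ} (hq : q ∈ Q) (hn : ¬RE Q q) {R ε : ℝ}
    (hR : |q.1| ≤ R) (hL : L < q.2 + ε) (hH : q.2 + ε < H) : Co Q q (R, ε) := by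
  unfold RE at hn
  push Not at hn
  obtain ⟨A, hA, hAq⟩ := hn
  have hcn : Cn Q q ((1 : ℝ), (0 : ℝ)) := by
    refine ⟨A - q.1, by linarith, ?_⟩
    have : q + (A - q.1) • ((1 : ℝ), (0 : ℝ)) = (A, q.2) := by
      ext
      · simp
      · simp
    rw [this]
    exact hA
  rw [abs_le] at hR
  have h3 := Co.of h.conv (hcn.smul hq (c := R + q.1) (by linarith)) (h.axis _ hL hH)
  have h4 : (R + q.1) • (((1 : ℝ), (0 : ℝ)) : ℝ × ℝ) + ((0, q.2 + ε) - q) = (R, ε) := by
    ext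
    · simp
    · simp
  rwa [h4] at h3

/-- Points which are not right ends have neighbourhoods in `Q` without right ends. -/
theorem near_RE (h : PQ Q L H) {q : ℝ × ℝ} (hq : q ∈ Q) {A : ℝ} (hA : (A, q.2) ∈ Q)
    (hAq : q.1 < A) : ∀ᶠ q' in 𝓝 q, q' ∈ Q → ¬RE Q q' := by
  set C : ℝ := 1 / (q.2 - L) + 1 / (H - q.2) with hC
  have hlo := h.lo q hq
  have hhi := h.hi q hq
  have hc1 : 0 ≤ 1 / (q.2 - L) := div_nonneg zero_le_one (by linarith)
  have hc2 : 0 ≤ 1 / (H - q.2) := div_nonneg zero_le_one (by linarith)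
  have hcont : Continuous (fun q' : ℝ × ℝ => q'.1 + |A| * |q'.2 - q.2| * C) := by fun_prop
  have h0 : q.1 + |A| * |q.2 - q.2| * C < A := by simpa using hAq
  have hmem : ((0 : ℝ), L) ∈ Q := by
    obtain ⟨A1, hA1, h1⟩ := h.pos L le_rfl h.lt.le
    obtain ⟨A2, hA2, h2⟩ := h.neg L le_rfl h.lt.le
    exact hconv h.conv h2 h1 hA2.le hA1.le
  have hmem' : ((0 : ℝ), H) ∈ Q := by
    obtain ⟨A1, hA1, h1⟩ := h.pos H h.lt.le le_rfl
    obtain ⟨A2, hA2, h2⟩ := h.neg H h.lt.le le_rfl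
    exact hconv h.conv h2 h1 hA2.le hA1.le
  filter_upwards [hcont.continuousAt.eventually (gt_mem_nhds h0)] with q' hq' hq'Q hre
  have hlo' := h.lo q' hq'Q
  have hhi' := h.hi q' hq'Q
  have hab : -|A| ≤ A ∧ A ≤ |A| := abs_le.1 le_rfl
  rcases lt_trichotomy q'.2 q.2 with h1 | h1 | h1
  · have hd : 0 < q.2 - L := by linarith
    have h2 := h.conv hmem hA (a := (q.2 - q'.2) / (q.2 - L)) (b := (q'.2 - L) / (q.2 - L))
      (div_nonneg (by linarith) hd.le) (div_nonneg (by linarith) hd.le) (by field_simp; ring)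
    have h3 : ((q.2 - q'.2) / (q.2 - L)) • (((0 : ℝ), L) : ℝ × ℝ) +
        ((q'.2 - L) / (q.2 - L)) • (A, q.2) = ((q'.2 - L) / (q.2 - L) * A, q'.2) := by
      ext
      · simp
      · simp only [Prod.snd_add, Prod.smul_snd, smul_eq_mul]
        field_simp
        ring
    rw [h3] at h2
    have h4 := hre _ h2
    have h5 : (q'.2 - L) / (q.2 - L) * A = A - A * (q.2 - q'.2) * (1 / (q.2 - L)) := by
      field_simp
      ring
    have h6 : |q'.2 - q.2| = q.2 - q'.2 := by rw [abs_of_neg (by linarith)]; ring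
    rw [h6] at hq'
    have h7 : A * (q.2 - q'.2) * (1 / (q.2 - L)) ≤ |A| * (q.2 - q'.2) * C := by
      have e1 : A * (q.2 - q'.2) * (1 / (q.2 - L)) ≤ |A| * (q.2 - q'.2) * (1 / (q.2 - L)) :=
        mul_le_mul_of_nonneg_right (mul_le_mul_of_nonneg_right hab.2 (by linarith)) hc1
      have e2 : |A| * (q.2 - q'.2) * (1 / (q.2 - L)) ≤ |A| * (q.2 - q'.2) * C :=
        mul_le_mul_of_nonneg_left (by rw [hC]; linarith)
          (mul_nonneg (abs_nonneg _) (by linarith))
      linarith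
    rw [h5] at h4
    linarith
  · rw [h1, sub_self, abs_zero, mul_zero, zero_mul, add_zero] at hq'
    have h4 := hre A (by rw [h1]; exact hA)
    linarith
  · have hd : 0 < H - q.2 := by linarith
    have h2 := h.conv hmem' hA (a := (q'.2 - q.2) / (H - q.2)) (b := (H - q'.2) / (H - q.2))
      (div_nonneg (by linarith) hd.le) (div_nonneg (by linarith) hd.le) (by field_simp; ring)
    have h3 : ((q'.2 - q.2) / (H - q.2)) • (((0 : ℝ), H) : ℝ × ℝ) +
        ((H - q'.2) / (H - q.2)) • (A, q.2) = ((H - q'.2) / (H - q.2) * A, q'.2) := by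
      ext
      · simp
      · simp only [Prod.snd_add, Prod.smul_snd, smul_eq_mul]
        field_simp
        ring
    rw [h3] at h2
    have h4 := hre _ h2
    have h5 : (H - q'.2) / (H - q.2) * A = A - A * (q'.2 - q.2) * (1 / (H - q.2)) := by
      field_simp
      ring
    have h6 : |q'.2 - q.2| = q'.2 - q.2 := abs_of_pos (by linarith)
    rw [h6] at hq'
    have h7 : A * (q'.2 - q.2) * (1 / (H - q.2)) ≤ |A| * (q'.2 - q.2) * C := by
      have e1 : A * (q'.2 - q.2) * (1 / (H - q.2)) ≤ |A| * (q'.2 - q.2) * (1 / (H - q.2)) :=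
        mul_le_mul_of_nonneg_right (mul_le_mul_of_nonneg_right hab.2 (by linarith)) hc2
      have e2 : |A| * (q'.2 - q.2) * (1 / (H - q.2)) ≤ |A| * (q'.2 - q.2) * C :=
        mul_le_mul_of_nonneg_left (by rw [hC]; linarith)
          (mul_nonneg (abs_nonneg _) (by linarith))
      linarith
    rw [h5] at h4
    linarith

theorem RE_closed (h : PQ Q L H) : IsClosed {q | q ∈ Q ∧ RE Q q} := by
  rw [← isOpen_compl_iff, isOpen_iff_mem_nhds]
  intro q hq
  by_cases hqQ : q ∈ Q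
  · have h1 : ¬RE Q q := fun h2 => hq ⟨hqQ, h2⟩
    unfold RE at h1
    push Not at h1
    obtain ⟨A, hA, hAq⟩ := h1
    filter_upwards [near_RE h hqQ hA hAq] with q' h2
    exact fun h3 => h2 h3.1 h3.2
  · have : Qᶜ ∈ 𝓝 q := h.comp.isClosed.isOpen_compl.mem_nhds hqQ
    filter_upwards [this] with q' h2
    exact fun h3 => h2 h3.1

/-- interior points of the sections -/
theorem sec_int (h : PQ Q L H) {A1 A A2 s : ℝ} (h1 : (A1, s) ∈ Q) (h2 : (A2, s) ∈ Q)
    (h3 : A1 < A) (h4 : A < A2) (hL : L < s) (hH : s < H) : (A, s) ∈ interior Q := by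
  have h0 := h.axis s hL hH
  rcases lt_trichotomy A 0 with h5 | h5 | h5
  · have hA1 : A1 < 0 := h3.trans h5
    have h6 := h.conv.combo_self_interior_mem_interior h1 h0 (a := A / A1) (b := 1 - A / A1)
      (div_nonneg_of_nonpos h5.le hA1.le) (by
        rw [sub_pos, div_lt_one_of_neg hA1]; exact h3) (by ring)
    have h7 : (A / A1) • ((A1, s) : ℝ × ℝ) + (1 - A / A1) • ((0 : ℝ), s) = (A, s) := by
      ext
      · simp only [Prod.fst_add, Prod.smul_fst, smul_eq_mul, mul_zero, add_zero]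
        exact div_mul_cancel₀ _ hA1.ne
      · simp only [Prod.snd_add, Prod.smul_snd, smul_eq_mul]
        ring
    rwa [h7] at h6
  · rw [h5]; exact h0
  · have hA2 : 0 < A2 := h5.trans h4
    have h6 := h.conv.combo_self_interior_mem_interior h2 h0 (a := A / A2) (b := 1 - A / A2)
      (div_nonneg h5.le hA2.le) (by
        rw [sub_pos, div_lt_one hA2]; exact h4) (by ring)
    have h7 : (A / A2) • ((A2, s) : ℝ × ℝ) + (1 - A / A2) • ((0 : ℝ), s) = (A, s) := by
      ext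
      · simp only [Prod.fst_add, Prod.smul_fst, smul_eq_mul, mul_zero, add_zero]
        field_simp
      · simp only [Prod.snd_add, Prod.smul_snd, smul_eq_mul]
        ring
    rwa [h7] at h6

theorem sep_low {C : Set (ℝ × ℝ)} (hC : IsCompact C) {L : ℝ} (h : ∀ q ∈ C, L < q.2) :
    ∃ η : ℝ, 0 < η ∧ ∀ q ∈ C, L + η ≤ q.2 := by
  rcases C.eq_empty_or_nonempty with h1 | h1
  · exact ⟨1, one_pos, fun q hq => by rw [h1] at hq; exact absurd hq (notMem_empty q)⟩
  · obtain ⟨x0, hx0, hmin⟩ := hC.exists_isMinOn h1 (f := fun q : ℝ × ℝ => q.2) (by fun_prop)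
    refine ⟨x0.2 - L, by linarith [h x0 hx0], fun q hq => ?_⟩
    have : x0.2 ≤ q.2 := hmin hq
    linarith

theorem sep_high {C : Set (ℝ × ℝ)} (hC : IsCompact C) {H : ℝ} (h : ∀ q ∈ C, q.2 < H) :
    ∃ η : ℝ, 0 < η ∧ ∀ q ∈ C, q.2 ≤ H - η := by
  rcases C.eq_empty_or_nonempty with h1 | h1
  · exact ⟨1, one_pos, fun q hq => by rw [h1] at hq; exact absurd hq (notMem_empty q)⟩
  · obtain ⟨x0, hx0, hmax⟩ := hC.exists_isMaxOn h1 (f := fun q : ℝ × ℝ => q.2) (by fun_prop)
    refine ⟨H - x0.2, by linarith [h x0 hx0], fun q hq => ?_⟩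
    have : q.2 ≤ x0.2 := hmax hq
    linarith

/-! ### reflection in the vertical axis -/

/-- the reflected set -/
def rf (Q : Set (ℝ × ℝ)) : Set (ℝ × ℝ) := {q | (-q.1, q.2) ∈ Q}

theorem mem_rf {q : ℝ × ℝ} : q ∈ rf Q ↔ (-q.1, q.2) ∈ Q := Iff.rfl

theorem int_rf {q : ℝ × ℝ} : q ∈ interior (rf Q) ↔ (-q.1, q.2) ∈ interior Q := by
  set e : (ℝ × ℝ) ≃ₜ (ℝ × ℝ) := (Homeomorph.neg ℝ).prodCongr (Homeomorph.refl ℝ) with he
  have h1 : e ⁻¹' (interior Q) = interior (e ⁻¹' Q) := e.preimage_interior Q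
  have h2 : e ⁻¹' Q = rf Q := rfl
  rw [h2] at h1
  rw [← h1]
  rfl

theorem Co_rf {q d : ℝ × ℝ} (h : Co (rf Q) (-q.1, q.2) d) : Co Q q (-d.1, d.2) := by
  obtain ⟨ε, hε, h1⟩ := h
  refine ⟨ε, hε, ?_⟩
  rw [int_rf] at h1
  have h2 : ((-(((-q.1, q.2) : ℝ × ℝ) + ε • d).1, (((-q.1, q.2) : ℝ × ℝ) + ε • d).2) : ℝ × ℝ) =
      q + ε • (-d.1, d.2) := by
    ext
    · simp; ring
    · simp
  rwa [h2] at h1

theorem PQ.rf (h : PQ Q L H) : PQ (rf Q) L H := by
  refine ⟨?_, ?_, h.lt, fun q hq => h.lo (-q.1, q.2) hq, fun q hq => h.hi (-q.1, q.2) hq,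
    ?_, ?_, ?_⟩
  · intro x hx y hy a b ha hb hab
    have h1 := h.conv (mem_rf.1 hx) (mem_rf.1 hy) ha hb hab
    rw [mem_rf]
    have h2 : ((-(a • x + b • y).1, (a • x + b • y).2) : ℝ × ℝ) =
        a • (-x.1, x.2) + b • (-y.1, y.2) := by
      ext
      · simp; ring
      · simp
    rw [h2]
    exact h1
  · have h1 := h.comp.image (f := fun x : ℝ × ℝ => (-x.1, x.2)) (by fun_prop)
    have h2 : (fun x : ℝ × ℝ => (-x.1, x.2)) '' Q = PI.rf Q := by
      ext x
      constructor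
      · rintro ⟨y, hy, rfl⟩
        rw [mem_rf]
        simpa using hy
      · intro hx
        exact ⟨(-x.1, x.2), hx, by simp⟩
    rwa [h2] at h1
  · intro s h1 h2
    rw [int_rf]
    simpa using h.axis s h1 h2
  · intro s h1 h2
    obtain ⟨A, hA, h3⟩ := h.neg s h1 h2
    exact ⟨-A, by linarith, by rw [mem_rf]; simpa using h3⟩
  · intro s h1 h2
    obtain ⟨A, hA, h3⟩ := h.pos s h1 h2
    exact ⟨-A, by linarith, by rw [mem_rf]; simpa using h3⟩

theorem RE_rf {q : ℝ × ℝ} : RE (rf Q) (-q.1, q.2) ↔ LE Q q := by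
  constructor
  · intro h A hA
    have := h (-A) (by rw [mem_rf]; simpa using hA)
    simp only at this
    linarith
  · intro h A hA
    have := h (-A) (by rw [mem_rf] at hA; simpa using hA)
    simp only
    linarith

theorem LE_rf {q : ℝ × ℝ} : LE (rf Q) (-q.1, q.2) ↔ RE Q q := by
  constructor
  · intro h A hA
    have := h (-A) (by rw [mem_rf]; simpa using hA)
    simp only at this
    linarith
  · intro h A hA
    have := h (-A) (by rw [mem_rf] at hA; simpa using hA)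
    simp only
    linarith

theorem LE_closed (h : PQ Q L H) : IsClosed {q | q ∈ Q ∧ LE Q q} := by
  have h1 := (RE_closed h.rf).preimage
    (by fun_prop : Continuous fun q : ℝ × ℝ => ((-q.1, q.2) : ℝ × ℝ))
  have h2 : (fun q : ℝ × ℝ => ((-q.1, q.2) : ℝ × ℝ)) ⁻¹' {q | q ∈ rf Q ∧ RE (rf Q) q} =
      {q | q ∈ Q ∧ LE Q q} := by
    ext q
    simp only [mem_preimage, mem_ofPred_eq, RE_rf]
    rw [mem_rf]
    simp
  rwa [h2] at h1

/-! ### the planar lemma -/

theorem bd (h : PQ Q L H) : ∃ R : ℝ, ∀ q ∈ Q, |q.1| ≤ R := by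
  obtain ⟨R, hR⟩ := h.comp.isBounded.exists_norm_le
  exact ⟨R, fun q hq => (norm_fst_le q).trans (hR q hq)⟩

/-- The mixed case. -/
theorem mixed (h : PQ Q L H) (hW : IsCompact W) (hWQ : W ⊆ Q)
    (tL : ∀ q ∈ W, q.2 = H → ¬LE Q q) (bR : ∀ q ∈ W, q.2 = L → ¬RE Q q) :
    ∃ d : Bool → ℝ × ℝ, ∀ q ∈ W, ∃ b, Co Q q (d b) := by
  obtain ⟨R, hR⟩ := bd h
  have hWR : IsCompact (W ∩ {q | q ∈ Q ∧ RE Q q}) := hW.inter_right (RE_closed h)
  have hWL : IsCompact (W ∩ {q | q ∈ Q ∧ LE Q q}) := hW.inter_right (LE_closed h)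
  obtain ⟨η1, hη1, h1⟩ := sep_low hWR (L := L) (fun q hq =>
    lt_of_le_of_ne (h.lo q hq.2.1) fun hcon => bR q hq.1 hcon.symm hq.2.2)
  obtain ⟨η2, hη2, h2⟩ := sep_high hWL (H := H) (fun q hq =>
    lt_of_le_of_ne (h.hi q hq.2.1) fun hcon => tL q hq.1 hcon hq.2.2)
  have hlt := h.lt
  set η : ℝ := min (min η1 η2) ((H - L) / 2) with hη
  have hη0 : 0 < η := lt_min (lt_min hη1 hη2) (by linarith)
  have he1 : η ≤ η1 := (min_le_left _ _).trans (min_le_left _ _)
  have he2 : η ≤ η2 := (min_le_left _ _).trans (min_le_right _ _)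
  have he3 : η ≤ (H - L) / 2 := min_le_right _ _
  refine ⟨fun b => if b then (-R, -(η / 2)) else (R, η / 2), fun q hq => ?_⟩
  have hqQ := hWQ hq
  have hlo := h.lo q hqQ
  have hhi := h.hi q hqQ
  by_cases hre : RE Q q
  · have h3 := h1 q ⟨hq, hqQ, hre⟩
    refine ⟨true, ?_⟩
    simp only [if_true]
    refine left_dir h hqQ (fun hle => ?_) (hR q hqQ) (by linarith) (by linarith)
    linarith [hre.pos h hqQ, hle.neg h hqQ]
  · by_cases h4 : q.2 ≤ H - η
    · refine ⟨false, ?_⟩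
      simp only [Bool.false_eq_true, if_false]
      exact right_dir h hqQ hre (hR q hqQ) (by linarith) (by linarith)
    · push Not at h4
      refine ⟨true, ?_⟩
      simp only [if_true]
      refine left_dir h hqQ (fun hle => ?_) (hR q hqQ) (by linarith) (by linarith)
      have := h2 q ⟨hq, hqQ, hle⟩
      linarith

/-- A left end at which the section does not shrink upwards. -/
theorem le_co (h : PQ Q L H) {q : ℝ × ℝ} (hq : q ∈ Q) (hle : LE Q q) (h1 : q.2 < H)
    (h2 : L < q.2) {A : ℝ} (hA : A ≤ q.1) (hAQ : (A, H) ∈ Q) {u t : ℝ} (hu : 0 < u) (ht : 0 < t) :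
    Co Q q (u, t) := by
  have hneg := hle.neg h hq
  obtain ⟨A1, hA1, hA1Q⟩ := h.pos q.2 (h.lo q hq) (h.hi q hq)
  have hcn1 : Cn Q q ((1 : ℝ), (0 : ℝ)) := by
    refine ⟨A1 - q.1, by linarith, ?_⟩
    have : q + (A1 - q.1) • ((1 : ℝ), (0 : ℝ)) = (A1, q.2) := by
      ext
      · simp
      · simp
    rw [this]
    exact hA1Q
  have hcn2 : Cn Q q ((A, H) - q) := by
    refine ⟨1, one_pos, ?_⟩
    rw [one_smul, add_sub_cancel]
    exact hAQ
  set D : ℝ := H - q.2 with hD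
  have hD0 : 0 < D := by rw [hD]; linarith
  have hy := h.axis (q.2 + D / 2) (by linarith) (by rw [hD]; linarith)
  set c : ℝ := -q.1 / u + D / (2 * t) with hc
  have hc1 : 0 < -q.1 / u := div_pos (by linarith) hu
  have hc2 : 0 < D / (2 * t) := div_pos hD0 (by linarith)
  set lam : ℝ := (c * t - D / 2) / D with hlam
  have hct : c * t - D / 2 = -q.1 / u * t := by
    rw [hc]
    field_simp
    ring
  have hlam0 : 0 ≤ lam := by
    rw [hlam, hct]
    positivity
  set mu : ℝ := c * u + q.1 - lam * (A - q.1) with hmu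
  have hcu : 0 ≤ c * u + q.1 := by
    have : c * u = -q.1 + D / (2 * t) * u := by
      rw [hc]
      field_simp
    rw [this]
    have : 0 < D / (2 * t) * u := mul_pos hc2 hu
    linarith
  have hmu0 : 0 ≤ mu := by
    have : lam * (A - q.1) ≤ 0 := mul_nonpos_of_nonneg_of_nonpos hlam0 (by linarith)
    rw [hmu]
    linarith
  have h3 := Co.of h.conv (Cn.add h.conv hq (hcn2.smul hq hlam0) (hcn1.smul hq hmu0)) hy
  have h4 : lam • (((A, H) : ℝ × ℝ) - q) + mu • (((1 : ℝ), (0 : ℝ)) : ℝ × ℝ) +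
      ((0, q.2 + D / 2) - q) = c • (u, t) := by
    ext
    · simp only [Prod.fst_add, Prod.smul_fst, Prod.fst_sub, smul_eq_mul, mul_one]
      rw [hmu]
      ring
    · simp only [Prod.snd_add, Prod.smul_snd, Prod.snd_sub, smul_eq_mul, mul_zero, add_zero]
      have : lam * D = c * t - D / 2 := by
        rw [hlam]
        field_simp
      rw [← hD, this]
      ring
  rw [h4] at h3
  have hc0 : 0 < c := by linarith
  have h5 := h3.smul (c := 1 / c) (by positivity)
  rwa [smul_smul, one_div, inv_mul_cancel₀ hc0.ne', one_smul] at h5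

/-- The case in which both the lowest and the highest level have right ends in `W`. -/
theorem caseRR (h : PQ Q L H) (hW : IsCompact W) (hWQ : W ⊆ Q) {κ κ' : ℝ} (hκ : 0 < κ)
    (hκ' : 0 < κ') (hκκ : 1 < κ * κ')
    (hR : ∀ q ∈ W, RE Q q → (-κ * q.1, q.2) ∈ Q) (hL : ∀ q ∈ W, LE Q q → (-κ' * q.1, q.2) ∈ Q)
    (tR : ∃ q ∈ W, q.2 = H ∧ RE Q q) (bR : ∃ q ∈ W, q.2 = L ∧ RE Q q)
    (key : ∀ q ∈ W, LE Q q → L < q.2 → q.2 < H → ∃ A : ℝ, A ≤ q.1 ∧ (A, H) ∈ Q) :
    ∃ d : Bool → ℝ × ℝ, ∀ q ∈ W, ∃ b, Co Q q (d b) := by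
  obtain ⟨R, hRb⟩ := bd h
  have hlt := h.lt
  -- no level has both kinds of ends
  have hno : ∀ q1 ∈ W, ∀ q2 ∈ W, q1.2 = q2.2 → RE Q q1 → LE Q q2 → False := by
    intro q1 hq1 q2 hq2 h12 hre hle
    have h1 := hR q1 hq1 hre
    have h2 := hL q2 hq2 hle
    have h3 := hre.pos h (hWQ hq1)
    have h4 := hle.neg h (hWQ hq2)
    have h5 := hle (-κ * q1.1) (by rw [← h12]; exact h1)
    have h6 := hre (-κ' * q2.1) (by rw [h12]; exact h2)
    nlinarith
  by_cases hWL : ∃ q ∈ W, LE Q q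
  · obtain ⟨qs, hqs, hqsL⟩ := hWL
    have hqsQ := hWQ hqs
    have hsL : L < qs.2 := by
      obtain ⟨qb, hqb, hb1, hb2⟩ := bR
      refine lt_of_le_of_ne (h.lo _ hqsQ) fun hcon => ?_
      exact hno qb hqb qs hqs (by rw [hb1, hcon]) hb2 hqsL
    have hsH : qs.2 < H := by
      obtain ⟨qb, hqb, hb1, hb2⟩ := tR
      refine lt_of_le_of_ne (h.hi _ hqsQ) fun hcon => ?_
      exact hno qb hqb qs hqs (by rw [hb1, hcon]) hb2 hqsL
    have hsneg := hqsL.neg h hqsQ
    obtain ⟨As, hAs, hAsQ⟩ := key qs hqs hqsL hsL hsH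
    obtain ⟨qb, hqb, hb1, hb2⟩ := bR
    have hqbQ := hWQ hqb
    have hbpos := hb2.pos h hqbQ
    -- the lowest section is not longer to the left
    have claim1 : ∀ A : ℝ, (A, L) ∈ Q → qs.1 ≤ A := by
      intro A hA
      by_contra hcon
      push Not at hcon
      have hHL : 0 < H - L := by linarith
      have h2 := h.conv hA hAsQ (a := (H - qs.2) / (H - L)) (b := (qs.2 - L) / (H - L))
        (div_nonneg (by linarith) hHL.le) (div_nonneg (by linarith) hHL.le) (by field_simp; ring)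
      have h3 : ((H - qs.2) / (H - L)) • ((A, L) : ℝ × ℝ) + ((qs.2 - L) / (H - L)) • (As, H) =
          ((H - qs.2) / (H - L) * A + (qs.2 - L) / (H - L) * As, qs.2) := by
        ext
        · simp
        · simp only [Prod.snd_add, Prod.smul_snd, smul_eq_mul]
          field_simp
          ring
      rw [h3] at h2
      have h4 := hqsL _ h2
      have h5 : (H - qs.2) / (H - L) + (qs.2 - L) / (H - L) = 1 := by field_simp; ring
      have h6 : 0 < (H - qs.2) / (H - L) := div_pos (by linarith) hHL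
      have h7 : 0 < (qs.2 - L) / (H - L) := div_pos (by linarith) hHL
      nlinarith
    have hB := hL qs hqs hqsL
    set B : ℝ := -κ' * qs.1 with hBdef
    have hbB : qb.1 < B := by
      have h2 := hR qb hqb hb2
      rw [hb1] at h2
      have h3 := claim1 _ h2
      rw [hBdef]
      nlinarith
    set τ : ℝ := qs.2 - L with hτ
    have hτ0 : 0 < τ := by rw [hτ]; linarith
    set u : ℝ := (B - qb.1) / 2 with hu
    have hu0 : 0 < u := by rw [hu]; linarith
    have hbot : ∀ q ∈ Q, q.2 = L → q + ((u, τ) : ℝ × ℝ) ∈ interior Q := by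
      intro q hq hqL
      have h2 : q + ((u, τ) : ℝ × ℝ) = (q.1 + u, qs.2) := by
        ext
        · simp
        · simp [hqL, hτ]
      rw [h2]
      have h3 : q.1 ≤ qb.1 := hb2 q.1 (by rw [hb1, ← hqL]; exact hq)
      have h4 : qs.1 ≤ q.1 := claim1 q.1 (by rw [← hqL]; exact hq)
      exact sec_int h (A1 := qs.1) (A2 := B) hqsQ hB (by linarith) (by rw [hu]; linarith) hsL hsH
    have hO : IsOpen {q : ℝ × ℝ | q + ((u, τ) : ℝ × ℝ) ∈ interior Q} :=
      isOpen_interior.preimage (continuous_id.add continuous_const)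
    obtain ⟨η, hη, h5⟩ := sep_low (hW.diff hO) (L := L) (fun q hq => by
      refine lt_of_le_of_ne (h.lo q (hWQ hq.1)) fun hcon => ?_
      exact hq.2 (hbot q (hWQ hq.1) hcon.symm))
    refine ⟨fun b => if b then (u, τ) else (-R, -(η / 2)), fun q hq => ?_⟩
    have hqQ := hWQ hq
    by_cases hco : Co Q q (u, τ)
    · exact ⟨true, by simpa using hco⟩
    · refine ⟨false, ?_⟩
      simp only [Bool.false_eq_true, if_false]
      have h6 : L + η ≤ q.2 := by
        refine h5 q ⟨hq, fun hcon => hco ⟨1, one_pos, ?_⟩⟩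
        rw [one_smul]
        exact hcon
      have hhi := h.hi q hqQ
      refine left_dir h hqQ (fun hle => ?_) (hRb q hqQ) (by linarith) (by linarith)
      have hqL : L < q.2 := by linarith
      have hqH : q.2 < H := by
        obtain ⟨qt, hqt, ht1, ht2⟩ := tR
        refine lt_of_le_of_ne hhi fun hcon => ?_
        exact hno qt hqt q hq (by rw [ht1, hcon]) ht2 hle
      obtain ⟨A, hA, hAQ⟩ := key q hq hle hqL hqH
      exact hco (le_co h hqQ hle hqH hqL hA hAQ hu0 hτ0)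
  · push Not at hWL
    set y : ℝ := (H - L) / 4 with hy
    refine ⟨fun b => if b then (-R, y) else (-R, -y), fun q hq => ?_⟩
    have hqQ := hWQ hq
    have hlo := h.lo q hqQ
    have hhi := h.hi q hqQ
    rcases le_total q.2 ((L + H) / 2) with h1 | h1
    · refine ⟨true, ?_⟩
      simp only [if_true]
      exact left_dir h hqQ (hWL q hq) (hRb q hqQ) (by linarith) (by linarith)
    · refine ⟨false, ?_⟩
      simp only [Bool.false_eq_true, if_false]
      exact left_dir h hqQ (hWL q hq) (hRb q hqQ) (by linarith) (by linarith)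

/-- **The planar lemma.** -/
theorem planarG (h : PQ Q L H) (hW : IsCompact W) (hWQ : W ⊆ Q) {κ κ' : ℝ} (hκ : 0 < κ)
    (hκ' : 0 < κ') (hκκ : 1 < κ * κ')
    (hR : ∀ q ∈ W, RE Q q → (-κ * q.1, q.2) ∈ Q) (hL : ∀ q ∈ W, LE Q q → (-κ' * q.1, q.2) ∈ Q)
    (key : (∃ q ∈ W, q.2 = H ∧ RE Q q) → ∀ q ∈ W, LE Q q → L < q.2 → q.2 < H →
      ∃ A : ℝ, A ≤ q.1 ∧ (A, H) ∈ Q)
    (key' : (∃ q ∈ W, q.2 = H ∧ LE Q q) → ∀ q ∈ W, RE Q q → L < q.2 → q.2 < H →
      ∃ A : ℝ, q.1 ≤ A ∧ (A, H) ∈ Q) :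
    ∃ d : Bool → ℝ × ℝ, ∀ q ∈ W, ∃ b, Co Q q (d b) := by
  have hno : ∀ q1 ∈ W, ∀ q2 ∈ W, q1.2 = q2.2 → RE Q q1 → LE Q q2 → False := by
    intro q1 hq1 q2 hq2 h12 hre hle
    have h1 := hR q1 hq1 hre
    have h2 := hL q2 hq2 hle
    have h3 := hre.pos h (hWQ hq1)
    have h4 := hle.neg h (hWQ hq2)
    have h5 := hle (-κ * q1.1) (by rw [← h12]; exact h1)
    have h6 := hre (-κ' * q2.1) (by rw [h12]; exact h2)
    nlinarith
  -- reflected data
  have hW' : IsCompact (rf W) := by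
    have h1 := hW.image (f := fun x : ℝ × ℝ => (-x.1, x.2)) (by fun_prop)
    have h2 : (fun x : ℝ × ℝ => (-x.1, x.2)) '' W = rf W := by
      ext x
      constructor
      · rintro ⟨y, hy, rfl⟩
        rw [mem_rf]
        simpa using hy
      · intro hx
        exact ⟨(-x.1, x.2), hx, by simp⟩
    rwa [h2] at h1
  have hWQ' : rf W ⊆ rf Q := fun q hq => hWQ hq
  have back : (∃ d : Bool → ℝ × ℝ, ∀ q ∈ rf W, ∃ b, Co (rf Q) q (d b)) →
      ∃ d : Bool → ℝ × ℝ, ∀ q ∈ W, ∃ b, Co Q q (d b) := by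
    rintro ⟨d, hd⟩
    refine ⟨fun b => (-(d b).1, (d b).2), fun q hq => ?_⟩
    obtain ⟨b, hb⟩ := hd (-q.1, q.2) (by rw [mem_rf]; simpa using hq)
    exact ⟨b, Co_rf hb⟩
  have hRE' : ∀ q, RE (rf Q) q ↔ LE Q (-q.1, q.2) := by
    intro q
    have := RE_rf (Q := Q) (q := (-q.1, q.2))
    simp only [neg_neg, Prod.mk.eta] at this
    exact this
  have hLE' : ∀ q, LE (rf Q) q ↔ RE Q (-q.1, q.2) := by
    intro q
    have := LE_rf (Q := Q) (q := (-q.1, q.2))
    simp only [neg_neg, Prod.mk.eta] at this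
    exact this
  by_cases tL : ∃ q ∈ W, q.2 = H ∧ LE Q q
  · -- the highest level has no right ends
    have tR : ∀ q ∈ W, q.2 = H → ¬RE Q q := by
      intro q hq h1 h2
      obtain ⟨q2, hq2, h3, h4⟩ := tL
      exact hno q hq q2 hq2 (by rw [h1, h3]) h2 h4
    by_cases bL : ∃ q ∈ W, q.2 = L ∧ LE Q q
    · refine back (caseRR h.rf hW' hWQ' hκ' hκ (by rw [mul_comm]; exact hκκ) ?_ ?_ ?_ ?_ ?_)
      · intro q hq hre
        have h1 := hL _ hq ((hRE' q).1 hre)
        rw [mem_rf]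
        simp only at h1 ⊢
        convert h1 using 2
        ring
      · intro q hq hle
        have h1 := hR _ hq ((hLE' q).1 hle)
        rw [mem_rf]
        simp only at h1 ⊢
        convert h1 using 2
        ring
      · obtain ⟨q, hq, h1, h2⟩ := tL
        exact ⟨(-q.1, q.2), by rw [mem_rf]; simpa using hq, h1, RE_rf.2 h2⟩
      · obtain ⟨q, hq, h1, h2⟩ := bL
        exact ⟨(-q.1, q.2), by rw [mem_rf]; simpa using hq, h1, RE_rf.2 h2⟩
      · intro q hq hle h1 h2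
        obtain ⟨A, hA, hAQ⟩ := key' tL _ hq ((hLE' q).1 hle) h1 h2
        simp only at hA
        exact ⟨-A, by linarith, by rw [mem_rf]; simpa using hAQ⟩
    · push Not at bL
      refine back (mixed h.rf hW' hWQ' ?_ ?_)
      · intro q hq h1 h2
        exact tR _ hq h1 ((hLE' q).1 h2)
      · intro q hq h1 h2
        exact bL _ hq h1 ((hRE' q).1 h2)
  · by_cases bR : ∃ q ∈ W, q.2 = L ∧ RE Q q
    · have bL : ∀ q ∈ W, q.2 = L → ¬LE Q q := by
        intro q hq h1 h2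
        obtain ⟨q2, hq2, h3, h4⟩ := bR
        exact hno q2 hq2 q hq (by rw [h1, h3]) h4 h2
      by_cases tR : ∃ q ∈ W, q.2 = H ∧ RE Q q
      · exact caseRR h hW hWQ hκ hκ' hκκ hR hL tR bR (key tR)
      · push Not at tR
        refine back (mixed h.rf hW' hWQ' ?_ ?_)
        · intro q hq h1 h2
          exact tR _ hq h1 ((hLE' q).1 h2)
        · intro q hq h1 h2
          exact bL _ hq h1 ((hRE' q).1 h2)
    · push Not at tL bR
      exact mixed h hW hWQ tL bR

end Pool.Agent.K3h51.PI
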