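import Mathlib
import Pool.Agent.K3h51.PI.Body
import Pool.Agent.K3h51.PI.Planar

set_option autoImplicit false
set_option maxHeartbeats 1000000
set_option linter.unusedSectionVars false
set_option linter.unusedVariables false

/-!
# Illuminating permutation invariant convex bodies: the cases

`PBody.lowApex`: the lowest section is one point. `PBody.vertical`: the vertical directions point
into the body from all points of the highest and of the lowest section. `PBody.general`: the lowest
and the highest section are facets, and the vertical direction does not point into the body from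
some point of the highest section.
-/

open Set Topology
open Pool.Agent.H843R3.Had2

namespace Pool.Agent.K3h51.PI

variable {α : Type*} [Fintype α] [DecidableEq α] {K : Set (Option α → ℝ)}

/-! ### points strictly inside a section -/

/-- If a middle section contains a vector with the value `u` on `S` and the value `l` off `S`, then
the vectors of the same level with all coordinates strictly between `l` and `u` are interior. -/
theorem PBody.inside (h : PBody K) {L H : ℝ} (hl : Lev K L H) (S : Finset (Option α))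
    {u l s : ℝ} {y : Option α → ℝ} (hy : y ∈ K) (hyS : ∀ i ∈ S, y i = u)
    (hyS' : ∀ i ∉ S, y i = l) (hs : ∑ i, y i = s) (hLs : L < s) (hsH : s < H)
    {z : Option α → ℝ} (hz : ∑ i, z i = s) (hz1 : ∀ i, l < z i) (hz2 : ∀ i, z i < u) :
    z ∈ interior K := by
  classical
  by_contra hzn
  obtain ⟨f, hf⟩ := geometric_hahn_banach_open_point h.conv.interior isOpen_interior hzn
  have hfK : ∀ a ∈ K, f a ≤ f z := by
    have h1 : closure (interior K) ⊆ {a | f a ≤ f z} :=
      closure_minimal (fun a ha => (hf a ha).le) (isClosed_le f.continuous continuous_const)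
    intro a ha
    have h2 : K ⊆ closure (interior K) := by
      rw [h.conv.closure_interior_eq_closure_of_nonempty_interior h.int]
      exact subset_closure
    exact h1 (h2 ha)
  set c : Option α → ℝ := fun i => f (fun j => if i = j then 1 else 0) with hc
  have hfc : ∀ v : Option α → ℝ, f v = ∑ i, v i * c i := by
    intro v
    have := LinearMap.pi_apply_eq_sum_univ (f : (Option α → ℝ) →ₗ[ℝ] ℝ) v
    simpa [hc, smul_eq_mul] using this
  have hSne : S.Nonempty := by
    rw [Finset.nonempty_iff_ne_empty]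
    rintro rfl
    have h1 : ∑ i, y i < ∑ i, z i := by
      refine Finset.sum_lt_sum_of_nonempty ⟨none, Finset.mem_univ _⟩ fun i _ => ?_
      rw [hyS' i (Finset.notMem_empty i)]
      exact hz1 i
    rw [hs, hz] at h1
    exact lt_irrefl _ h1
  obtain ⟨S', hS', hmax⟩ := Finset.exists_max_image (Finset.powersetCard S.card Finset.univ)
    (fun T => ∑ i ∈ T, c i) ⟨S, by simp⟩
  have hS'c : S'.card = S.card := (Finset.mem_powersetCard.1 hS').2
  have hex : ∀ i ∈ S', ∀ j ∉ S', c j ≤ c i := by
    intro i hi j hj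
    have h1 := hmax (insert j (S'.erase i)) (by
      rw [Finset.mem_powersetCard]
      refine ⟨Finset.subset_univ _, ?_⟩
      rw [Finset.card_insert_of_notMem (fun hcon => hj (Finset.mem_of_mem_erase hcon)),
        Finset.card_erase_of_mem hi, hS'c]
      have : 0 < S.card := Finset.card_pos.2 hSne
      omega)
    rw [Finset.sum_insert (fun hcon => hj (Finset.mem_of_mem_erase hcon))] at h1
    have h2 := Finset.add_sum_erase S' c hi
    linarith
  have hS'ne : S'.Nonempty := by
    rw [← Finset.card_pos, hS'c]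
    exact Finset.card_pos.2 hSne
  obtain ⟨i0, hi0, hmin⟩ := Finset.exists_min_image S' c hS'ne
  set γ : ℝ := c i0 with hγ
  -- the rearranged vector
  set e : {x // x ∈ S'} ≃ {x // x ∈ S} := Finset.equivOfCardEq hS'c with he
  set σ : Equiv.Perm (Option α) := e.extendSubtype with hσ
  have hy' := h.perm σ y hy
  have hσ1 : ∀ i ∈ S', y (σ i) = u := fun i hi => hyS _ (e.extendSubtype_mem i hi)
  have hσ2 : ∀ i ∉ S', y (σ i) = l := fun i hi => hyS' _ (e.extendSubtype_not_mem i hi)
  have hsum : ∑ i, y (σ i) = s := by rw [Equiv.sum_comp σ y, hs]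
  have h1 := hfK _ hy'
  rw [hfc, hfc] at h1
  have h2 : ∑ i, (y (σ i) - z i) * (c i - γ) = ∑ i, y (σ i) * c i - ∑ i, z i * c i := by
    have e1 : ∀ i, (y (σ i) - z i) * (c i - γ) =
        y (σ i) * c i - z i * c i - (y (σ i) - z i) * γ := fun i => by ring
    simp only [e1]
    rw [Finset.sum_sub_distrib, Finset.sum_sub_distrib, ← Finset.sum_mul, Finset.sum_sub_distrib,
      hsum, hz]
    ring
  have h3 : ∀ i ∈ Finset.univ, 0 ≤ (y (σ i) - z i) * (c i - γ) := by
    intro i _
    by_cases hi : i ∈ S'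
    · rw [hσ1 i hi]
      exact mul_nonneg (by linarith [hz2 i]) (by linarith [hmin i hi])
    · rw [hσ2 i hi]
      exact mul_nonneg_of_nonpos_of_nonpos (by linarith [hz1 i])
        (by linarith [hex i0 hi0 i hi])
  have h4 : ∑ i, (y (σ i) - z i) * (c i - γ) = 0 :=
    le_antisymm (by rw [h2]; linarith) (Finset.sum_nonneg h3)
  have h5 : ∀ i, c i = γ := by
    intro i
    have h6 := (Finset.sum_eq_zero_iff_of_nonneg h3).1 h4 i (Finset.mem_univ _)
    rcases mul_eq_zero.1 h6 with h7 | h7
    · exfalso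
      by_cases hi : i ∈ S'
      · rw [hσ1 i hi] at h7
        linarith [hz2 i]
      · rw [hσ2 i hi] at h7
        linarith [hz1 i]
    · linarith
  have hfγ : ∀ v : Option α → ℝ, f v = (∑ i, v i) * γ := by
    intro v
    rw [hfc, Finset.sum_mul]
    exact Finset.sum_congr rfl fun i _ => by rw [h5 i]
  have h6 := hfK _ hl.memH
  have h7 := hfK _ hl.memL
  rw [hfγ, hfγ, sum_P h.card, hz] at h6 h7
  simp only at h6 h7
  have h8 : γ = 0 := by
    rcases lt_trichotomy γ 0 with h9 | h9 | h9
    · nlinarith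
    · exact h9
    · nlinarith
  obtain ⟨y0, hy0⟩ := h.int
  have h9 := hf y0 hy0
  rw [hfγ, hfγ, h8] at h9
  simp at h9

/-! ### horizontal directions -/

/-- the direction of transport out of a block -/
noncomputable def vS (S : Finset (Option α)) : Option α → ℝ :=
  fun i => if i ∈ S then -((Fintype.card α : ℝ) + 1 - S.card) else (S.card : ℝ)

theorem sum_vS (S : Finset (Option α)) : ∑ i, vS S i = 0 := by
  rw [← Finset.sum_add_sum_compl S]
  have h1 : ∑ i ∈ S, vS S i = ∑ i ∈ S, -((Fintype.card α : ℝ) + 1 - S.card) :=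
    Finset.sum_congr rfl fun i hi => if_pos hi
  have h2 : ∑ i ∈ Sᶜ, vS S i = ∑ i ∈ Sᶜ, (S.card : ℝ) :=
    Finset.sum_congr rfl fun i hi => if_neg (Finset.mem_compl.1 hi)
  rw [h1, h2, Finset.sum_const, Finset.sum_const, nsmul_eq_mul, nsmul_eq_mul, Finset.card_compl,
    Nat.cast_sub (Finset.card_le_univ S), Fintype.card_option]
  push_cast
  ring

theorem PBody.blockS (h : PBody K) {x : Option α → ℝ} (hx : x ∈ K) (S : Finset (Option α))
    (hS0 : 0 < S.card) (hS : S.card < Fintype.card α + 1)
    (hSx : ∀ a ∈ S, ∀ b ∉ S, x b < x a) {R : ℝ} (hR : ∀ y ∈ K, ∀ i, |y i| ≤ R)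
    {ε : ℝ} (hq : P α (0, (∑ i, x i) + ε) ∈ interior K) {M : ℝ}
    (hM : 2 * R < M) : Co K x (M • vS S + P α (0, ε)) := by
  set s : ℝ := ∑ i, x i with hs
  have hz : P α ((0 : ℝ), s) ∈ K := h.avg_c hx
  have hmt : (1 : ℝ) ≤ (Fintype.card α : ℝ) + 1 - S.card := by
    have : (S.card : ℝ) + 1 ≤ (Fintype.card α : ℝ) + 1 := by exact_mod_cast hS
    linarith
  have ht : (1 : ℝ) ≤ S.card := by exact_mod_cast hS0
  have hR0 : 0 ≤ R := (abs_nonneg _).trans (hR x hx none)
  set v : Option α → ℝ := M • vS S - (P α (0, s) - x) with hv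
  have hcn : Cn K x v := by
    refine h.transport hx v ?_ ?_
    · rw [hv]
      simp only [Pi.sub_apply, Pi.smul_apply, smul_eq_mul, Finset.sum_sub_distrib]
      rw [← Finset.mul_sum, sum_vS, sum_P h.card, mul_zero]
      simp [hs]
    · have hbd : ∀ i, |P α (0, s) i - x i| ≤ 2 * R := by
        intro i
        have h1 := hR _ hz i
        have h2 := hR _ hx i
        have h3 := abs_sub (P α (0, s) i) (x i)
        linarith
      intro a b h1 h2
      refine hSx a ?_ b ?_
      · by_contra ha
        have h3 := hbd a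
        rw [abs_le] at h3
        rw [hv] at h1
        simp only [Pi.sub_apply, Pi.smul_apply, smul_eq_mul, vS, if_neg ha] at h1
        nlinarith [mul_nonneg (by linarith : 0 ≤ M) (by linarith : (0 : ℝ) ≤ S.card - 1)]
      · intro hb
        have h3 := hbd b
        rw [abs_le] at h3
        rw [hv] at h2
        simp only [Pi.sub_apply, Pi.smul_apply, smul_eq_mul, vS, if_pos hb] at h2
        nlinarith [mul_nonneg (by linarith : 0 ≤ M)
          (by linarith : (0 : ℝ) ≤ (Fintype.card α : ℝ) + 1 - S.card - 1)]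
  have h1 := Co.of h.conv hcn hq
  have h2 : v + (P α (0, s + ε) - x) = M • vS S + P α (0, ε) := by
    have e1 : ((0 : ℝ), s + ε) = ((0 : ℝ), s) + ((0 : ℝ), ε) := by
      ext <;> simp
    rw [hv, e1, map_add]
    abel
  rwa [h2] at h1

omit [DecidableEq α] in
theorem const_or (x : Option α → ℝ) : x = P α (0, ∑ i, x i) ∨
    ∃ S : Finset (Option α), 0 < S.card ∧ S.card < Fintype.card α + 1 ∧
      ∀ a ∈ S, ∀ b ∉ S, x b < x a := by
  classical
  obtain ⟨i0, _, hmax⟩ := Finset.exists_max_image (Finset.univ : Finset (Option α)) x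
    ⟨none, Finset.mem_univ _⟩
  set S : Finset (Option α) := Finset.univ.filter (fun i => x i = x i0) with hS
  rcases (Finset.card_le_univ S).eq_or_lt with h1 | h1
  · left
    have h2 : ∀ i, x i = x i0 := by
      intro i
      have : i ∈ S := by
        rw [(Finset.card_eq_iff_eq_univ S).1 h1]
        exact Finset.mem_univ i
      rw [hS] at this
      simpa using this
    have h3 : ∑ i, x i = (Fintype.card α + 1) * x i0 := by
      rw [Finset.sum_congr rfl (fun i _ => h2 i), Finset.sum_const, Finset.card_univ,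
        Fintype.card_option, nsmul_eq_mul]
      push_cast
      ring
    ext i
    rw [h2 i, h3]
    cases i with
    | none => rw [P_none]; field_simp; ring
    | some a => rw [P_some]; field_simp; ring
  · right
    refine ⟨S, Finset.card_pos.2 ⟨i0, by rw [hS]; simp⟩, by
      rw [Fintype.card_option] at h1; exact h1, ?_⟩
    intro a ha b hb
    rw [hS] at ha hb
    simp only [Finset.mem_filter, Finset.mem_univ, true_and] at ha hb
    rw [ha]
    exact lt_of_le_of_ne (hmax b (Finset.mem_univ b)) hb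

/-- The conclusion: `K` is illuminated by `2 ^ n` directions. -/
def Ill (K : Set (Option α → ℝ)) : Prop :=
  ∃ D : Finset (Option α → ℝ), D.card ≤ 2 ^ (Fintype.card α + 1) ∧ ∀ x ∈ K, ∃ v ∈ D, Co K x v

theorem Ill.of_sets (w : Finset (Option α) → (Option α → ℝ))
    (hw : ∀ x ∈ K, ∃ S, Co K x (w S)) : Ill K := by
  classical
  refine ⟨Finset.univ.image w, ?_, ?_⟩
  · refine Finset.card_image_le.trans ?_
    rw [Finset.card_univ, Fintype.card_finset, Fintype.card_option]
  · intro x hx
    obtain ⟨S, hS⟩ := hw x hx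
    exact ⟨w S, Finset.mem_image_of_mem _ (Finset.mem_univ _), hS⟩

theorem Ill.of_pairs (w : Finset α × Bool → (Option α → ℝ))
    (hw : ∀ x ∈ K, ∃ j, Co K x (w j)) : Ill K := by
  classical
  refine ⟨Finset.univ.image w, ?_, ?_⟩
  · refine Finset.card_image_le.trans ?_
    rw [Finset.card_univ, Fintype.card_prod, Fintype.card_finset, Fintype.card_bool, pow_succ]
  · intro x hx
    obtain ⟨j, hj⟩ := hw x hx
    exact ⟨w j, Finset.mem_image_of_mem _ (Finset.mem_univ _), hj⟩

theorem Ill.of_ng (h : Ill (ng K)) : Ill K := by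
  classical
  obtain ⟨D, hD, h1⟩ := h
  refine ⟨D.image (fun v => -v), Finset.card_image_le.trans hD, fun x hx => ?_⟩
  obtain ⟨v, hv, h2⟩ := h1 (-x) (by rw [mem_ng, neg_neg]; exact hx)
  exact ⟨-v, Finset.mem_image_of_mem _ hv, Co_ng h2⟩

/-- moving along the axis -/
theorem Lev.co_axis (h : PBody K) {L H : ℝ} (hl : Lev K L H) {s t : ℝ} (ht : t ≠ 0)
    (h1 : L < s + t) (h2 : s + t < H) : Co K (P α (0, s)) (P α (0, t / |t|)) := by
  refine ⟨|t|, abs_pos.2 ht, ?_⟩
  rw [← map_smul, ← map_add]
  have h3 : ((0 : ℝ), s) + |t| • ((0 : ℝ), t / |t|) = (0, s + t) := by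
    ext
    · simp
    · simp only [Prod.snd_add, Prod.smul_snd, smul_eq_mul]
      rw [mul_div_cancel₀ _ (abs_pos.2 ht).ne']
  rw [h3]
  exact hl.axis h h1 h2

/-- The lowest section is a point. -/
theorem PBody.lowApex (h : PBody K) {L H : ℝ} (hl : Lev K L H)
    (hap : ∀ A : ℝ, (A, L) ∈ Qs K → A = 0) : Ill K := by
  classical
  obtain ⟨R, hR0, hR⟩ := h.bound
  have hlt := hl.lt
  set t0 : ℝ := (H - L) / 2 with ht0
  -- the cap
  obtain ⟨η, hη0, hη⟩ : ∃ η : ℝ, 0 < η ∧ ∀ x ∈ K, ∑ i, x i < L + η → Co K x (P α (0, 1)) := by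
    have hO : IsOpen {x : Option α → ℝ | x + t0 • P α (0, 1) ∈ interior K} :=
      isOpen_interior.preimage (continuous_id.add continuous_const)
    have hC : IsCompact (K \ {x : Option α → ℝ | x + t0 • P α (0, 1) ∈ interior K}) :=
      h.comp.diff hO
    have hgood : ∀ x ∈ K, x ∉ (K \ {x : Option α → ℝ | x + t0 • P α (0, 1) ∈ interior K}) →
        Co K x (P α (0, 1)) := by
      intro x hx hx'
      refine ⟨t0, by rw [ht0]; linarith, ?_⟩
      by_contra hcon
      exact hx' ⟨hx, hcon⟩
    rcases (K \ {x : Option α → ℝ | x + t0 • P α (0, 1) ∈ interior K}).eq_empty_or_nonempty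
      with h1 | h1
    · exact ⟨1, one_pos, fun x hx _ => hgood x hx (by rw [h1]; exact notMem_empty x)⟩
    · obtain ⟨x0, hx0, hmin⟩ := hC.exists_isMinOn h1
        (f := fun x : Option α → ℝ => ∑ i, x i) (by fun_prop)
      have h2 := hl.lo _ hx0.1
      have h3 : L ≠ ∑ i, x0 i := by
        intro hcon
        refine hx0.2 ?_
        have h4 : x0 = P α (0, L) := by
          ext i
          have h5 := h.avg_i hx0.1 i
          rw [← hcon] at h5
          have h6 := hap _ h5
          cases i with
          | none => rw [P_none]; linarith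
          | some a => rw [P_some]; simp only [neg_zero, zero_div]; linarith
        show x0 + t0 • P α (0, 1) ∈ interior K
        rw [h4, ← map_smul, ← map_add]
        have h7 : ((0 : ℝ), L) + t0 • ((0 : ℝ), (1 : ℝ)) = (0, L + t0) := by
          ext <;> simp
        rw [h7]
        exact hl.axis h (by rw [ht0]; linarith) (by rw [ht0]; linarith)
      refine ⟨∑ i, x0 i - L, by linarith [lt_of_le_of_ne h2 h3], fun x hx h4 => ?_⟩
      refine hgood x hx fun hcon => ?_
      have h5 : ∑ i, x0 i ≤ ∑ i, x i := hmin hcon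
      linarith
  set η' : ℝ := min η (H - L) with hη'
  have hη'0 : 0 < η' := lt_min hη0 (by linarith)
  have hη'1 : η' ≤ η := min_le_left _ _
  have hη'2 : η' ≤ H - L := min_le_right _ _
  refine Ill.of_sets (fun S => if S = ∅ then P α (0, -1) else if S = Finset.univ then P α (0, 1)
    else (2 * R + 1) • vS S + P α (0, -(η' / 2))) fun x hx => ?_
  have hlo := hl.lo x hx
  have hhi := hl.hi x hx
  rcases lt_or_ge (∑ i, x i) (L + η') with h1 | h1
  · refine ⟨Finset.univ, ?_⟩
    have hne : (Finset.univ : Finset (Option α)) ≠ ∅ :=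
      Finset.nonempty_iff_ne_empty.1 ⟨none, Finset.mem_univ _⟩
    simp only [if_neg hne, if_true]
    exact hη x hx (by linarith)
  · rcases const_or x with h2 | ⟨S, hS0, hS, hSx⟩
    · refine ⟨∅, ?_⟩
      simp only [if_true]
      have h3 := Lev.co_axis h hl (s := ∑ i, x i) (t := -(η' / 2)) (by linarith) (by linarith)
        (by linarith)
      have h4 : -(η' / 2) / |-(η' / 2)| = -1 := by
        rw [abs_neg, abs_of_pos (by linarith : 0 < η' / 2), neg_div, div_self (by linarith)]
      rw [h4, ← h2] at h3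
      exact h3
    · refine ⟨S, ?_⟩
      have hne1 : S ≠ ∅ := by rintro rfl; simp at hS0
      have hne2 : S ≠ Finset.univ := by
        rintro rfl
        rw [Finset.card_univ, Fintype.card_option] at hS
        exact lt_irrefl _ hS
      simp only [if_neg hne1, if_neg hne2]
      exact h.blockS hx S hS0 hS hSx hR (hl.axis h (by linarith) (by linarith)) (by linarith)

/-- The vertical directions illuminate the highest and the lowest section. -/
theorem PBody.vertical (h : PBody K) {L H : ℝ} (hl : Lev K L H)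
    (hT : ∀ x ∈ K, ∑ i, x i = H → Co K x (P α (0, -1)))
    (hB : ∀ x ∈ K, ∑ i, x i = L → Co K x (P α (0, 1))) : Ill K := by
  classical
  obtain ⟨R, hR0, hR⟩ := h.bound
  have hlt := hl.lt
  refine Ill.of_sets (fun S => if S = ∅ then P α (0, -1) else if S = Finset.univ then P α (0, 1)
    else (2 * R + 1) • vS S + P α (0, 0)) fun x hx => ?_
  rcases (hl.lo x hx).eq_or_lt with h1 | h1
  · refine ⟨Finset.univ, ?_⟩
    have hne : (Finset.univ : Finset (Option α)) ≠ ∅ :=
      Finset.nonempty_iff_ne_empty.1 ⟨none, Finset.mem_univ _⟩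
    simp only [if_neg hne, if_true]
    exact hB x hx h1.symm
  rcases (hl.hi x hx).eq_or_lt with h2 | h2
  · refine ⟨∅, ?_⟩
    simp only [if_true]
    exact hT x hx h2
  rcases const_or x with h3 | ⟨S, hS0, hS, hSx⟩
  · refine ⟨∅, Co.of_interior ?_ _⟩
    rw [h3]
    exact hl.axis h h1 h2
  · refine ⟨S, ?_⟩
    have hne1 : S ≠ ∅ := by rintro rfl; simp at hS0
    have hne2 : S ≠ Finset.univ := by
      rintro rfl
      rw [Finset.card_univ, Fintype.card_option] at hS
      exact lt_irrefl _ hS
    simp only [if_neg hne1, if_neg hne2]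
    exact h.blockS hx S hS0 hS hSx hR (by rw [add_zero]; exact hl.axis h h1 h2) (by linarith)

/-! ### the general case -/

theorem PBody.toPQ (h : PBody K) {L H : ℝ} (hl : Lev K L H)
    (hJL : ∃ A : ℝ, A ≠ 0 ∧ (A, L) ∈ Qs K) (hJH : ∃ A : ℝ, A ≠ 0 ∧ (A, H) ∈ Qs K) :
    PQ (Qs K) L H := by
  have hd0 : (0 : ℝ) < Fintype.card α := by exact_mod_cast h.card
  have hcon : ∀ s, L ≤ s → s ≤ H → ∃ A : ℝ, A ≠ 0 ∧ (A, s) ∈ Qs K := by
    intro s h1 h2
    rcases h1.eq_or_lt with h3 | h3
    · rw [← h3]; exact hJL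
    rcases h2.eq_or_lt with h4 | h4
    · rw [h4]; exact hJH
    obtain ⟨ε, hε, h5⟩ := Co.of_interior (h.Q_int (hl.axis h h3 h4)) ((1 : ℝ), (0 : ℝ))
    have h6 : (((0 : ℝ), s) : ℝ × ℝ) + ε • ((1 : ℝ), (0 : ℝ)) = (ε, s) := by
      ext <;> simp
    rw [h6] at h5
    exact ⟨ε, hε.ne', interior_subset h5⟩
  refine ⟨h.Q_conv, h.Q_comp, hl.lt, ?_, ?_, fun s h1 h2 => h.Q_int (hl.axis h h1 h2), ?_, ?_⟩
  · intro q hq
    have h1 := hl.lo _ (show P α q ∈ K from hq)
    rwa [sum_P h.card] at h1
  · intro q hq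
    have h1 := hl.hi _ (show P α q ∈ K from hq)
    rwa [sum_P h.card] at h1
  · intro s h1 h2
    obtain ⟨A, hA, h3⟩ := hcon s h1 h2
    rcases lt_or_gt_of_ne hA with h4 | h4
    · exact ⟨-A / Fintype.card α, div_pos (by linarith) hd0, h.Q_opp h3⟩
    · exact ⟨A, h4, h3⟩
  · intro s h1 h2
    obtain ⟨A, hA, h3⟩ := hcon s h1 h2
    rcases lt_or_gt_of_ne hA with h4 | h4
    · exact ⟨A, h4, h3⟩
    · exact ⟨-A / Fintype.card α, div_neg_of_neg_of_pos (by linarith) hd0, h.Q_opp h3⟩

theorem PBody.reg_aux (h : PBody K) {x : Option α → ℝ} (hx : x ∈ K) (T : Finset α)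
    (hT : T.card < Fintype.card α) (hTx : ∀ a ∈ T, x none ≤ x (some a))
    (hA : 0 ≤ x none - (∑ i, x i) / (Fintype.card α + 1)) :
    (-(((T.card : ℝ) + 1) / (Fintype.card α - T.card)) *
      (x none - (∑ i, x i) / (Fintype.card α + 1)), ∑ i, x i) ∈ Qs K := by
  set μ : ℝ := (∑ i, x i) / (Fintype.card α + 1) with hμ
  set A : ℝ := x none - μ with hAdef
  have hmt : (0 : ℝ) < Fintype.card α - T.card := by
    rw [sub_pos]; exact_mod_cast hT
  set κ : ℝ := ((T.card : ℝ) + 1) / (Fintype.card α - T.card) with hκ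
  have hκ0 : 0 < κ := by positivity
  have key : ∃ b : α, x (some b) - μ ≤ -κ * A := by
    by_contra hcon
    push Not at hcon
    have h1 : ∑ i, (x i - μ) = 0 := by
      rw [Finset.sum_sub_distrib, Finset.sum_const, Finset.card_univ, Fintype.card_option,
        nsmul_eq_mul, hμ]
      push_cast
      field_simp
      ring
    rw [Fintype.sum_option, ← Finset.sum_add_sum_compl T] at h1
    have h2 : (T.card : ℝ) * A ≤ ∑ a ∈ T, (x (some a) - μ) := by
      rw [← nsmul_eq_mul]
      refine Finset.card_nsmul_le_sum _ _ _ fun a ha => ?_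
      have := hTx a ha
      rw [hAdef]
      linarith
    have h3 : ((Fintype.card α : ℝ) - T.card) * (-κ * A) < ∑ a ∈ Tᶜ, (x (some a) - μ) := by
      have h4 : (Tᶜ).card = Fintype.card α - T.card := Finset.card_compl T
      have h5 : ((Tᶜ).card : ℝ) = (Fintype.card α : ℝ) - T.card := by
        rw [h4, Nat.cast_sub hT.le]
      rw [← h5, ← nsmul_eq_mul, ← Finset.sum_const]
      refine Finset.sum_lt_sum_of_nonempty ?_ fun a _ => hcon a
      rw [← Finset.card_pos, h4]
      omega
    have h6 : ((Fintype.card α : ℝ) - T.card) * (-κ * A) = -(((T.card : ℝ) + 1) * A) := by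
      rw [hκ]
      field_simp
    rw [h6] at h3
    change A + _ = 0 at h1
    linarith
  obtain ⟨b, hb⟩ := key
  have h1 : (x (some b) - μ, ∑ i, x i) ∈ Qs K := h.avg_i hx (some b)
  have h2 : ((0 : ℝ), ∑ i, x i) ∈ Qs K := h.Q_z _ h1
  refine hconv h.Q_conv h1 h2 hb ?_
  have : 0 ≤ κ * A := mul_nonneg hκ0.le hA
  linarith

theorem PBody.reg_aux' (h : PBody K) {x : Option α → ℝ} (hx : x ∈ K) (T : Finset α)
    (hT0 : 0 < T.card) (hTx : ∀ a ∉ T, x (some a) ≤ x none)
    (hA : x none - (∑ i, x i) / (Fintype.card α + 1) ≤ 0) :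
    (-(((Fintype.card α : ℝ) - T.card + 1) / T.card) *
      (x none - (∑ i, x i) / (Fintype.card α + 1)), ∑ i, x i) ∈ Qs K := by
  have h4 : (Tᶜ).card = Fintype.card α - T.card := Finset.card_compl T
  have hle : T.card ≤ Fintype.card α := Finset.card_le_univ T
  have h5 : ((Tᶜ).card : ℝ) = (Fintype.card α : ℝ) - T.card := by
    rw [h4, Nat.cast_sub hle]
  have h6 := h.neg.reg_aux (x := -x) (by rw [mem_ng, neg_neg]; exact hx) Tᶜ (by omega) (by
    intro a ha
    rw [Finset.mem_compl] at ha
    simp only [Pi.neg_apply]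
    linarith [hTx a ha]) (by
    simp only [Pi.neg_apply, Finset.sum_neg_distrib]
    rw [neg_div]
    linarith)
  rw [mem_Qs_ng, h5] at h6
  simp only [Pi.neg_apply, Finset.sum_neg_distrib, Prod.neg_mk, neg_neg] at h6
  have h8 : -(-(((Fintype.card α : ℝ) - T.card + 1) / (Fintype.card α -
      ((Fintype.card α : ℝ) - T.card))) * (-x none - -(∑ i, x i) / (Fintype.card α + 1))) =
      -(((Fintype.card α : ℝ) - T.card + 1) / T.card) *
        (x none - (∑ i, x i) / (Fintype.card α + 1)) := by
    rw [sub_sub_cancel]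
    ring
  rw [h8] at h6
  exact h6

theorem PBody.blockT (h : PBody K) {x : Option α → ℝ} (hx : x ∈ K) (T : Finset α)
    (hT0 : 0 < T.card) (hT : T.card < Fintype.card α)
    (hTx : ∀ a ∈ T, ∀ b ∉ T, x (some b) < x (some a)) {R : ℝ} (hR : ∀ y ∈ K, ∀ i, |y i| ≤ R)
    {d : ℝ × ℝ} {ε : ℝ} (hε : 0 < ε) (hq : Sh x + ε • d ∈ interior (Qs K)) {M : ℝ}
    (hM : 2 * R < ε * M) : Co K x (M • uT T + P α d) := by
  have hy := h.P_int hq
  have hmt : (1 : ℝ) ≤ Fintype.card α - T.card := by
    have : (T.card : ℝ) + 1 ≤ Fintype.card α := by exact_mod_cast hT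
    linarith
  have ht : (1 : ℝ) ≤ T.card := by exact_mod_cast hT0
  have hR0 : 0 ≤ R := (abs_nonneg _).trans (hR x hx none)
  set v : Option α → ℝ := (ε * M) • uT T - (P α (Sh x) - x) with hv
  have hcn : Cn K x v := by
    refine h.transport hx v ?_ ?_
    · rw [hv]
      simp only [Pi.sub_apply, Pi.smul_apply, smul_eq_mul, Finset.sum_sub_distrib]
      rw [← Finset.mul_sum, sum_uT, sum_P h.card, mul_zero, Sh]
      simp
    · have hnone : v none = 0 := by
        rw [hv]
        simp only [Pi.sub_apply, Pi.smul_apply, smul_eq_mul, P_Sh_none, uT, Option.elim_none]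
        ring
      have hbd : ∀ i, |P α (Sh x) i - x i| ≤ 2 * R := by
        intro i
        have h1 := hR _ (h.avg hx) i
        have h2 := hR _ hx i
        have h3 := abs_sub (P α (Sh x) i) (x i)
        linarith
      rintro (_ | a) (_ | b) h1 h2
      · rw [hnone] at h1; exact absurd h1 (lt_irrefl _)
      · rw [hnone] at h1; exact absurd h1 (lt_irrefl _)
      · rw [hnone] at h2; exact absurd h2 (lt_irrefl _)
      · refine hTx a ?_ b ?_
        · by_contra ha
          have h3 := hbd (some a)
          rw [abs_le] at h3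
          rw [hv] at h1
          simp only [Pi.sub_apply, Pi.smul_apply, smul_eq_mul, uT, Option.elim_some,
            if_neg ha] at h1
          nlinarith [mul_nonneg (by linarith : 0 ≤ ε * M) (by linarith : (0 : ℝ) ≤ T.card - 1)]
        · intro hb
          have h3 := hbd (some b)
          rw [abs_le] at h3
          rw [hv] at h2
          simp only [Pi.sub_apply, Pi.smul_apply, smul_eq_mul, uT, Option.elim_some,
            if_pos hb] at h2
          nlinarith [mul_nonneg (by linarith : 0 ≤ ε * M)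
            (by linarith : (0 : ℝ) ≤ (Fintype.card α : ℝ) - T.card - 1)]
  have h1 := Co.of h.conv hcn hy
  have h2 : v + (P α (Sh x + ε • d) - x) = ε • (M • uT T + P α d) := by
    rw [hv, map_add, map_smul, smul_add, smul_smul]
    abel
  rw [h2] at h1
  have h3 := h1.smul (c := 1 / ε) (by positivity)
  rwa [smul_smul, one_div, inv_mul_cancel₀ hε.ne', one_smul] at h3

theorem PBody.blockTop (h : PBody K) {x : Option α → ℝ} (hx : x ∈ K)
    (hxt : ∀ a, x (some a) < x none) {R : ℝ} (hR : ∀ y ∈ K, ∀ i, |y i| ≤ R) {M ε : ℝ}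
    (hM : 2 * R < M) (hq : P α ((0 : ℝ), (∑ i, x i) + ε) ∈ interior K) :
    Co K x (P α (-(Fintype.card α * M), ε)) := by
  have hm : (1 : ℝ) ≤ Fintype.card α := by exact_mod_cast h.card
  have hR0 : 0 ≤ R := (abs_nonneg _).trans (hR x hx none)
  set s : ℝ := ∑ i, x i with hs
  have hz : P α ((0 : ℝ), s) ∈ K := h.avg_c hx
  set v : Option α → ℝ := P α (-(Fintype.card α * M), 0) - (P α (0, s) - x) with hv
  have hcn : Cn K x v := by
    refine h.transport hx v ?_ ?_
    · rw [hv]
      simp only [Pi.sub_apply, Finset.sum_sub_distrib]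
      rw [sum_P h.card, sum_P h.card]
      simp [hs]
    · have hbd : ∀ i, |P α (0, s) i - x i| ≤ 2 * R := by
        intro i
        have h1 := hR _ hz i
        have h2 := hR _ hx i
        have h3 := abs_sub (P α (0, s) i) (x i)
        linarith
      rintro a b h1 h2
      have ha : ∀ a : α, 0 < v (some a) := by
        intro a
        have h3 := hbd (some a)
        rw [abs_le] at h3
        rw [hv]
        have h4 : P α (-(Fintype.card α * M), 0) (some a) = M := by
          rw [P_some]
          field_simp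
          ring
        rw [Pi.sub_apply, h4, Pi.sub_apply]
        linarith
      have hn : v none < 0 := by
        have h3 := hbd none
        rw [abs_le] at h3
        rw [hv]
        have h4 : P α (-(Fintype.card α * M), 0) none = -(Fintype.card α * M) := by
          rw [P_none]
          simp
        rw [Pi.sub_apply, h4, Pi.sub_apply]
        nlinarith
      cases a with
      | some a => exact absurd h1 (not_lt.2 (ha a).le)
      | none =>
        cases b with
        | none => exact absurd h2 (not_lt.2 hn.le)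
        | some b => exact hxt b
  have h1 := Co.of h.conv hcn hq
  have h2 : v + (P α (0, s + ε) - x) = P α (-(Fintype.card α * M), ε) := by
    have e1 : ((-(Fintype.card α * M), ε) : ℝ × ℝ) =
        (-(Fintype.card α * M), 0) + ((0, s + ε) - (0, s)) := by
      ext <;> simp
    rw [e1, map_add, map_sub, hv]
    abel
  rw [h2] at h1
  exact h1

/-- constant vectors -/
theorem PBody.constTop (h : PBody K) {s : ℝ} (hx : P α (0, s) ∈ K)
    (hA : ∃ A : ℝ, A < 0 ∧ (A, s) ∈ Qs K) {N ε : ℝ}
    (hN : 0 ≤ N) (hq : P α ((0 : ℝ), s + ε) ∈ interior K) :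
    Co K (P α (0, s)) (P α (-N, ε)) := by
  obtain ⟨A, hA0, hA1⟩ := hA
  have hcn : Cn K (P α (0, s)) (P α (-1, 0)) := by
    refine ⟨-A, by linarith, ?_⟩
    rw [← map_smul, ← map_add]
    have h1 : (((0 : ℝ), s) : ℝ × ℝ) + (-A) • (((-1 : ℝ), (0 : ℝ)) : ℝ × ℝ) = (A, s) := by
      ext <;> simp
    rw [h1]
    exact hA1
  have h1 := Co.of h.conv (hcn.smul hx hN) hq
  have h2 : N • P α (-1, 0) + (P α (0, s + ε) - P α (0, s)) = P α (-N, ε) := by
    rw [← map_smul, ← map_sub, ← map_add]
    congr 1
    ext <;> simp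
  rw [h2] at h1
  exact h1

end Pool.Agent.K3h51.PI
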