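import Mathlib
import Pool.Agent.K3h51.PI.Main

set_option autoImplicit false
set_option maxHeartbeats 1000000
set_option linter.unusedSectionVars false
set_option linter.unusedVariables false

/-!
# Illuminating permutation invariant convex bodies: the theorem

`PBody.cover`: a convex body in `ℝ^n`, `n ≥ 2`, which is invariant under all permutations of the
coordinates is covered by `2 ^ n` translates of its interior.
-/

open Set Topology
open Pool.Agent.H843R3.Had2

namespace Pool.Agent.K3h51.PI

variable {α : Type*} [Fintype α] [DecidableEq α] {K : Set (Option α → ℝ)}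

/-- The vectors of type `T`. -/
def CT (K : Set (Option α → ℝ)) (T : Finset α) : Set (Option α → ℝ) :=
  {x | x ∈ K ∧ (∀ a ∈ T, x none ≤ x (some a)) ∧ (∀ a ∉ T, x (some a) ≤ x none)}

theorem PBody.CT_comp (h : PBody K) (T : Finset α) : IsCompact (CT K T) := by
  have h1 : IsClosed {x : Option α → ℝ | ∀ a ∈ T, x none ≤ x (some a)} := by
    have : {x : Option α → ℝ | ∀ a ∈ T, x none ≤ x (some a)} =
        ⋂ a ∈ T, {x : Option α → ℝ | x none ≤ x (some a)} := by
      ext x
      simp
    rw [this]
    exact isClosed_biInter fun a _ => isClosed_le (by fun_prop) (by fun_prop)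
  have h2 : IsClosed {x : Option α → ℝ | ∀ a ∉ T, x (some a) ≤ x none} := by
    have : {x : Option α → ℝ | ∀ a ∉ T, x (some a) ≤ x none} =
        ⋂ a, ⋂ (_ : a ∉ T), {x : Option α → ℝ | x (some a) ≤ x none} := by
      ext x
      simp
    rw [this]
    exact isClosed_iInter fun a => isClosed_iInter fun _ =>
      isClosed_le (by fun_prop) (by fun_prop)
  exact h.comp.inter_right (h1.inter h2)

/-- The average over the block of the coordinates in `T`. -/
theorem PBody.avg_T (h : PBody K) {x : Option α → ℝ} (hx : x ∈ K) (B : Finset (Option α)) :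
    (fun i => if i ∈ B then (∑ j ∈ B, x j) / B.card else x i) ∈ K :=
  avg_block h.conv h.perm B hx

omit [Fintype α] in
theorem sum_some (T : Finset α) (x : Option α → ℝ) :
    ∑ j ∈ T.map Function.Embedding.some, x j = ∑ a ∈ T, x (some a) := by
  rw [Finset.sum_map]
  rfl

/-- If a left end of type `T` is at a distance which is not attained in the highest section, then
the highest section lies strictly inside the section of this left end. -/
theorem PBody.keyL (h : PBody K) {L H : ℝ} (hl : Lev K L H) (T : Finset α)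
    (hT0 : 0 < T.card) (hT : T.card < Fintype.card α)
    (hκκ : 1 < (((T.card : ℝ) + 1) / (Fintype.card α - T.card)) *
      (((Fintype.card α : ℝ) - T.card + 1) / T.card))
    {x : Option α → ℝ} (hx : x ∈ CT K T) (hle : LE (Qs K) (Sh x))
    (hL : L < ∑ i, x i) (hH : ∑ i, x i < H)
    {b : ℝ} (hb0 : 0 < b) (hb : ∀ A : ℝ, (A, H) ∈ Qs K → A ≤ b)
    (hbκ : (-(((T.card : ℝ) + 1) / (Fintype.card α - T.card)) * b, H) ∈ Qs K)
    (hcon : ∀ A : ℝ, (A, H) ∈ Qs K → (Sh x).1 < A) :
    ∀ z ∈ K, ∑ i, z i = H → Co K z (P α (0, -1)) := by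
  obtain ⟨hxK, hx1, hx2⟩ := hx
  set s : ℝ := ∑ i, x i with hs
  set μ : ℝ := s / (Fintype.card α + 1) with hμ
  have hm : (0 : ℝ) < Fintype.card α := by exact_mod_cast h.card
  have ht0 : (0 : ℝ) < T.card := by exact_mod_cast hT0
  have hmt : (0 : ℝ) < Fintype.card α - T.card := by
    rw [sub_pos]; exact_mod_cast hT
  have hq1 : (Sh x).1 = x none - μ := rfl
  set q : ℝ := x none - μ with hq
  -- the values off `T`
  have hoff : ∀ a ∉ T, x (some a) = x none := by
    intro a ha
    have h1 := hle (x (some a) - μ) (h.avg_i hxK (some a))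
    rw [hq1] at h1
    have h2 := hx2 a ha
    rw [hq] at h1
    linarith
  set B : Finset (Option α) := T.map Function.Embedding.some with hB
  have hBc : (B.card : ℝ) = T.card := by rw [hB, Finset.card_map]
  have hBmem : ∀ a, some a ∈ B ↔ a ∈ T := by
    intro a
    rw [hB]
    simp
  have hBnone : none ∉ B := by
    rw [hB]
    simp
  have hy := h.avg_T hxK B
  set y : Option α → ℝ := fun i => if i ∈ B then (∑ j ∈ B, x j) / B.card else x i with hydef
  set u : ℝ := (∑ j ∈ B, x j) / B.card with hu
  have hyB : ∀ i ∈ B, y i = u := fun i hi => if_pos hi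
  have hyB' : ∀ i ∉ B, y i = x none := by
    intro i hi
    rw [hydef]
    simp only [if_neg hi]
    cases i with
    | none => rfl
    | some a => exact hoff a (fun ha => hi ((hBmem a).2 ha))
  have hsumB : ∑ j ∈ B, x j = s - ((Fintype.card α : ℝ) - T.card + 1) * x none := by
    rw [hB, sum_some, hs, Fintype.sum_option, ← Finset.sum_add_sum_compl T]
    have h1 : ∑ a ∈ Tᶜ, x (some a) = ∑ a ∈ Tᶜ, x none :=
      Finset.sum_congr rfl fun a ha => hoff a (Finset.mem_compl.1 ha)
    rw [h1, Finset.sum_const, nsmul_eq_mul, Finset.card_compl, Nat.cast_sub hT.le]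
    ring
  have hysum : ∑ i, y i = s := by
    rw [← Finset.sum_add_sum_compl B, Finset.sum_congr rfl hyB,
      Finset.sum_congr rfl (fun i hi => hyB' i (Finset.mem_compl.1 hi)), Finset.sum_const,
      Finset.sum_const, nsmul_eq_mul, nsmul_eq_mul, Finset.card_compl,
      Nat.cast_sub (Finset.card_le_univ B), Fintype.card_option, hBc, hu, hsumB, hBc]
    push_cast
    field_simp
    ring
  set κ : ℝ := ((T.card : ℝ) + 1) / (Fintype.card α - T.card) with hκ
  set κ' : ℝ := ((Fintype.card α : ℝ) - T.card + 1) / T.card with hκ'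
  have hκ0 : 0 < κ := by positivity
  have hκ0' : 0 < κ' := by positivity
  have hu' : u - μ = κ' * (-q) := by
    rw [hu, hsumB, hBc, hκ', hq, hμ]
    field_simp
    ring
  have hbq : b < κ' * (-q) := by
    have h1 := hcon _ hbκ
    rw [hq1] at h1
    have h2 : κ * b < -q := by linarith
    have h3 : κ' * (κ * b) < κ' * (-q) := mul_lt_mul_of_pos_left h2 hκ0'
    have h4 : b < κ' * (κ * b) := by
      have : b * 1 < b * (κ * κ') := mul_lt_mul_of_pos_left hκκ hb0
      linarith
    linarith
  intro z hz hzH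
  refine ⟨H - s, by linarith, ?_⟩
  have hzc : ∀ i, (z i - H / (Fintype.card α + 1), H) ∈ Qs K := by
    intro i
    have h1 := h.avg_i hz i
    rwa [hzH] at h1
  have hval : ∀ i, (z + (H - s) • P α (0, -1)) i = z i - H / (Fintype.card α + 1) + μ := by
    intro i
    cases i with
    | none =>
      simp only [Pi.add_apply, Pi.smul_apply, smul_eq_mul, P_none]
      rw [hμ]
      field_simp
      ring
    | some a =>
      simp only [Pi.add_apply, Pi.smul_apply, smul_eq_mul, P_some]
      rw [hμ]
      field_simp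
      ring
  refine h.inside hl B (u := u) (l := x none) (s := s) hy hyB hyB' hysum hL hH ?_ ?_ ?_
  · simp only [Pi.add_apply, Pi.smul_apply, smul_eq_mul, Finset.sum_add_distrib]
    rw [← Finset.mul_sum, sum_P h.card, hzH]
    ring
  · intro i
    rw [hval]
    have h1 := hcon _ (hzc i)
    rw [hq1, hq] at h1
    linarith
  · intro i
    rw [hval]
    have h1 := hb _ (hzc i)
    linarith

/-- The same for right ends. -/
theorem PBody.keyR (h : PBody K) {L H : ℝ} (hl : Lev K L H) (T : Finset α)
    (hT0 : 0 < T.card) (hT : T.card < Fintype.card α)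
    (hκκ : 1 < (((T.card : ℝ) + 1) / (Fintype.card α - T.card)) *
      (((Fintype.card α : ℝ) - T.card + 1) / T.card))
    {x : Option α → ℝ} (hx : x ∈ CT K T) (hre : RE (Qs K) (Sh x))
    (hL : L < ∑ i, x i) (hH : ∑ i, x i < H)
    {b : ℝ} (hb0 : b < 0) (hb : ∀ A : ℝ, (A, H) ∈ Qs K → b ≤ A)
    (hbκ : (-(((Fintype.card α : ℝ) - T.card + 1) / T.card) * b, H) ∈ Qs K)
    (hcon : ∀ A : ℝ, (A, H) ∈ Qs K → A < (Sh x).1) :
    ∀ z ∈ K, ∑ i, z i = H → Co K z (P α (0, -1)) := by
  obtain ⟨hxK, hx1, hx2⟩ := hx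
  set s : ℝ := ∑ i, x i with hs
  set μ : ℝ := s / (Fintype.card α + 1) with hμ
  have hm : (0 : ℝ) < Fintype.card α := by exact_mod_cast h.card
  have ht0 : (0 : ℝ) < T.card := by exact_mod_cast hT0
  have hmt : (0 : ℝ) < Fintype.card α - T.card := by
    rw [sub_pos]; exact_mod_cast hT
  have hq1 : (Sh x).1 = x none - μ := rfl
  set q : ℝ := x none - μ with hq
  -- the values on `T`
  have hon : ∀ a ∈ T, x (some a) = x none := by
    intro a ha
    have h1 := hre (x (some a) - μ) (h.avg_i hxK (some a))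
    rw [hq1] at h1
    have h2 := hx1 a ha
    rw [hq] at h1
    linarith
  set B : Finset (Option α) := Tᶜ.map Function.Embedding.some with hB
  have hTc : ((Tᶜ).card : ℝ) = (Fintype.card α : ℝ) - T.card := by
    rw [Finset.card_compl, Nat.cast_sub hT.le]
  have hBc : (B.card : ℝ) = (Fintype.card α : ℝ) - T.card := by
    rw [hB, Finset.card_map, hTc]
  have hBmem : ∀ a, some a ∈ B ↔ a ∉ T := by
    intro a
    rw [hB]
    simp
  have hy := h.avg_T hxK B
  set y : Option α → ℝ := fun i => if i ∈ B then (∑ j ∈ B, x j) / B.card else x i with hydef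
  set l : ℝ := (∑ j ∈ B, x j) / B.card with hl'
  have hyB : ∀ i ∈ B, y i = l := fun i hi => if_pos hi
  have hyB' : ∀ i ∉ B, y i = x none := by
    intro i hi
    rw [hydef]
    simp only [if_neg hi]
    cases i with
    | none => rfl
    | some a =>
      refine hon a ?_
      by_contra ha
      exact hi ((hBmem a).2 ha)
  have hsumB : ∑ j ∈ B, x j = s - ((T.card : ℝ) + 1) * x none := by
    rw [hB, sum_some, hs, Fintype.sum_option, ← Finset.sum_add_sum_compl T]
    have h1 : ∑ a ∈ T, x (some a) = ∑ a ∈ T, x none :=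
      Finset.sum_congr rfl fun a ha => hon a ha
    rw [h1, Finset.sum_const, nsmul_eq_mul]
    ring
  have hysum : ∑ i, y i = s := by
    rw [← Finset.sum_add_sum_compl B, Finset.sum_congr rfl hyB,
      Finset.sum_congr rfl (fun i hi => hyB' i (Finset.mem_compl.1 hi)), Finset.sum_const,
      Finset.sum_const, nsmul_eq_mul, nsmul_eq_mul, Finset.card_compl,
      Nat.cast_sub (Finset.card_le_univ B), Fintype.card_option, hBc, hl', hsumB, hBc]
    push_cast
    field_simp
    ring
  set κ : ℝ := ((T.card : ℝ) + 1) / (Fintype.card α - T.card) with hκ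
  set κ' : ℝ := ((Fintype.card α : ℝ) - T.card + 1) / T.card with hκ'
  have hκ0 : 0 < κ := by positivity
  have hκ0' : 0 < κ' := by positivity
  have hl2 : l - μ = -κ * q := by
    rw [hl', hsumB, hBc, hκ, hq, hμ]
    field_simp
    ring
  have hbq : -κ * q < b := by
    have h1 := hcon _ hbκ
    rw [hq1] at h1
    have h2 : κ' * (-b) < q := by linarith
    have h3 : κ * (κ' * (-b)) < κ * q := mul_lt_mul_of_pos_left h2 hκ0
    have h4 : -b < κ * (κ' * (-b)) := by
      have : (-b) * 1 < (-b) * (κ * κ') := mul_lt_mul_of_pos_left hκκ (by linarith)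
      linarith
    linarith
  intro z hz hzH
  refine ⟨H - s, by linarith, ?_⟩
  have hzc : ∀ i, (z i - H / (Fintype.card α + 1), H) ∈ Qs K := by
    intro i
    have h1 := h.avg_i hz i
    rwa [hzH] at h1
  have hval : ∀ i, (z + (H - s) • P α (0, -1)) i = z i - H / (Fintype.card α + 1) + μ := by
    intro i
    cases i with
    | none =>
      simp only [Pi.add_apply, Pi.smul_apply, smul_eq_mul, P_none]
      rw [hμ]
      field_simp
      ring
    | some a =>
      simp only [Pi.add_apply, Pi.smul_apply, smul_eq_mul, P_some]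
      rw [hμ]
      field_simp
      ring
  refine h.inside hl Bᶜ (u := x none) (l := l) (s := s) hy
    (fun i hi => hyB' i (Finset.mem_compl.1 hi))
    (fun i hi => hyB i (by simpa using hi)) hysum hL hH ?_ ?_ ?_
  · simp only [Pi.add_apply, Pi.smul_apply, smul_eq_mul, Finset.sum_add_distrib]
    rw [← Finset.mul_sum, sum_P h.card, hzH]
    ring
  · intro i
    rw [hval]
    have h1 := hb _ (hzc i)
    linarith
  · intro i
    rw [hval]
    have h1 := hcon _ (hzc i)
    rw [hq1, hq] at h1
    linarith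

theorem PBody.T_dir (h : PBody K) {L H : ℝ} (hl : Lev K L H) (hPQ : PQ (Qs K) L H)
    (hTop : ¬∀ z ∈ K, ∑ i, z i = H → Co K z (P α (0, -1)))
    {R : ℝ} (hR : ∀ y ∈ K, ∀ i, |y i| ≤ R)
    (T : Finset α) (hT0 : 0 < T.card) (hT : T.card < Fintype.card α) :
    ∃ w : Bool → (Option α → ℝ), ∀ x ∈ K, (∀ a ∈ T, x none ≤ x (some a)) →
      (∀ a ∉ T, x (some a) ≤ x none) → (∀ a ∈ T, ∀ b ∉ T, x (some b) < x (some a)) →
      ∃ b, Co K x (w b) := by
  have hmt : (1 : ℝ) ≤ Fintype.card α - T.card := by
    have : (T.card : ℝ) + 1 ≤ Fintype.card α := by exact_mod_cast hT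
    linarith
  have ht : (1 : ℝ) ≤ T.card := by exact_mod_cast hT0
  set κ : ℝ := ((T.card : ℝ) + 1) / (Fintype.card α - T.card) with hκ
  set κ' : ℝ := ((Fintype.card α : ℝ) - T.card + 1) / T.card with hκ'
  have hκ0 : 0 < κ := by positivity
  have hκ0' : 0 < κ' := by positivity
  have hκκ : 1 < κ * κ' := by
    rw [hκ, hκ', div_mul_div_comm, one_lt_div (by positivity)]
    nlinarith
  have hW : IsCompact (Sh '' (CT K T)) := (h.CT_comp T).image Sh_cont
  have hWQ : Sh '' (CT K T) ⊆ Qs K := by
    rintro _ ⟨x, hx, rfl⟩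
    exact h.avg hx.1
  have hRW : ∀ q ∈ Sh '' (CT K T), RE (Qs K) q → (-κ * q.1, q.2) ∈ Qs K := by
    rintro _ ⟨x, hx, rfl⟩ hre
    exact h.reg_aux hx.1 T hT hx.2.1 (hre.pos hPQ (h.avg hx.1)).le
  have hLW : ∀ q ∈ Sh '' (CT K T), LE (Qs K) q → (-κ' * q.1, q.2) ∈ Qs K := by
    rintro _ ⟨x, hx, rfl⟩ hle
    exact h.reg_aux' hx.1 T hT0 hx.2.2 (hle.neg hPQ (h.avg hx.1)).le
  obtain ⟨d, hd⟩ := planarG hPQ hW hWQ hκ0 hκ0' hκκ hRW hLW (by
    rintro ⟨q1, hq1, hq1H, hq1R⟩ _ ⟨x, hx, rfl⟩ hle h1 h2
    by_contra hcon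
    push Not at hcon
    refine hTop (h.keyL hl T hT0 hT hκκ hx hle h1 h2 (b := q1.1)
      (hq1R.pos hPQ (hWQ hq1)) (fun A hA => hq1R A (by rw [hq1H]; exact hA)) ?_ ?_)
    · have h3 := hRW q1 hq1 hq1R
      rwa [hq1H] at h3
    · intro A hA
      by_contra hcon2
      push Not at hcon2
      exact hcon A hcon2 hA) (by
    rintro ⟨q1, hq1, hq1H, hq1L⟩ _ ⟨x, hx, rfl⟩ hre h1 h2
    by_contra hcon
    push Not at hcon
    refine hTop (h.keyR hl T hT0 hT hκκ hx hre h1 h2 (b := q1.1)
      (hq1L.neg hPQ (hWQ hq1)) (fun A hA => hq1L A (by rw [hq1H]; exact hA)) ?_ ?_)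
    · have h3 := hLW q1 hq1 hq1L
      rwa [hq1H] at h3
    · intro A hA
      by_contra hcon2
      push Not at hcon2
      exact hcon A hcon2 hA)
  obtain ⟨r, hr, hr1⟩ := unif h.Q_conv hW hWQ d hd
  refine ⟨fun b => ((2 * R + 1) / r) • uT T + P α (d b), ?_⟩
  intro x hx h1 h2 h3
  obtain ⟨b, hb⟩ := hr1 (Sh x) ⟨x, ⟨hx, h1, h2⟩, rfl⟩
  refine ⟨b, h.blockT hx T hT0 hT h3 hR hr hb ?_⟩
  rw [mul_div_cancel₀ _ hr.ne']
  linarith

theorem types (hm : 1 ≤ Fintype.card α) (x : Option α → ℝ) :
    (∀ a, x (some a) < x none) ∨ (∀ a, x none < x (some a)) ∨ x = P α (0, ∑ i, x i) ∨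
    ∃ T : Finset α, 0 < T.card ∧ T.card < Fintype.card α ∧ (∀ a ∈ T, x none ≤ x (some a)) ∧
      (∀ a ∉ T, x (some a) ≤ x none) ∧ (∀ a ∈ T, ∀ b ∉ T, x (some b) < x (some a)) := by
  by_cases htop : ∀ a, x (some a) ≤ x none
  · set T : Finset α := Finset.univ.filter (fun a => x (some a) = x none) with hT
    rcases Nat.eq_zero_or_pos T.card with h0 | h0
    · left
      intro a
      refine lt_of_le_of_ne (htop a) fun hcon => ?_
      have : a ∈ T := by rw [hT]; simp [hcon]
      rw [Finset.card_eq_zero.1 h0] at this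
      exact absurd this (Finset.notMem_empty a)
    · rcases (Finset.card_le_univ T).eq_or_lt with h1 | h1
      · right; right; left
        have h2 : ∀ a, x (some a) = x none := by
          intro a
          have : a ∈ T := by
            rw [(Finset.card_eq_iff_eq_univ T).1 h1]
            exact Finset.mem_univ a
          rw [hT] at this
          simpa using this
        ext i
        have h3 : ∑ i, x i = (Fintype.card α + 1) * x none := by
          rw [Fintype.sum_option, Finset.sum_congr rfl (fun a _ => h2 a), Finset.sum_const,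
            Finset.card_univ, nsmul_eq_mul]
          ring
        cases i with
        | none => rw [P_none, h3]; field_simp; ring
        | some a => rw [P_some, h3, h2]; field_simp; ring
      · right; right; right
        refine ⟨T, h0, h1, ?_, fun a _ => htop a, ?_⟩
        · intro a ha
          rw [hT] at ha
          simp only [Finset.mem_filter, Finset.mem_univ, true_and] at ha
          exact ha.ge
        · intro a ha b hb
          rw [hT] at ha hb
          simp only [Finset.mem_filter, Finset.mem_univ, true_and] at ha hb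
          rw [ha]
          exact lt_of_le_of_ne (htop b) hb
  · push Not at htop
    obtain ⟨a0, ha0⟩ := htop
    set T : Finset α := Finset.univ.filter (fun a => x none < x (some a)) with hT
    have h0 : 0 < T.card := Finset.card_pos.2 ⟨a0, by rw [hT]; simp [ha0]⟩
    rcases (Finset.card_le_univ T).eq_or_lt with h1 | h1
    · right; left
      intro a
      have : a ∈ T := by
        rw [(Finset.card_eq_iff_eq_univ T).1 h1]
        exact Finset.mem_univ a
      rw [hT] at this
      simpa using this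
    · right; right; right
      refine ⟨T, h0, h1, ?_, ?_, ?_⟩
      · intro a ha
        rw [hT] at ha
        simp only [Finset.mem_filter, Finset.mem_univ, true_and] at ha
        exact ha.le
      · intro a ha
        rw [hT] at ha
        simpa using ha
      · intro a ha b hb
        rw [hT] at ha hb
        simp only [Finset.mem_filter, Finset.mem_univ, true_and, not_lt] at ha hb
        exact lt_of_le_of_lt hb ha

/-- The general case. -/
theorem PBody.general (h : PBody K) {L H : ℝ} (hl : Lev K L H)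
    (hJL : ∃ A : ℝ, A ≠ 0 ∧ (A, L) ∈ Qs K) (hJH : ∃ A : ℝ, A ≠ 0 ∧ (A, H) ∈ Qs K)
    (hTop : ¬∀ z ∈ K, ∑ i, z i = H → Co K z (P α (0, -1))) : Ill K := by
  classical
  obtain ⟨R, hR0, hR⟩ := h.bound
  have hPQ := h.toPQ hl hJL hJH
  have hlt := hl.lt
  have hm : (1 : ℝ) ≤ Fintype.card α := by exact_mod_cast h.card
  choose! wT hwT using h.T_dir hl hPQ hTop hR
  have hne : (Finset.univ : Finset α) ≠ ∅ := by
    rw [← Finset.nonempty_iff_ne_empty, ← Finset.card_pos, Finset.card_univ]
    exact h.card
  set y : ℝ := (H - L) / 4 with hy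
  set N : ℝ := Fintype.card α * (2 * R + 1) with hN
  have hN0 : 0 ≤ N := by rw [hN]; positivity
  have hRn : ∀ y ∈ ng K, ∀ i, |y i| ≤ R := by
    intro y hy i
    have := hR _ (mem_ng.1 hy) i
    simpa using this
  have haxis := fun (x : Option α → ℝ) (hx : x ∈ K) =>
    (show ∃ b : Bool, P α (0, (∑ i, x i) + (if b then -y else y)) ∈ interior K from by
      have hlo := hl.lo x hx
      have hhi := hl.hi x hx
      rcases le_total (∑ i, x i) ((L + H) / 2) with h1 | h1
      · refine ⟨false, ?_⟩
        simp only [Bool.false_eq_true, if_false]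
        exact hl.axis h (by linarith) (by linarith)
      · refine ⟨true, ?_⟩
        simp only [if_true]
        exact hl.axis h (by linarith) (by linarith))
  set w : Finset α × Bool → (Option α → ℝ) := fun j =>
    if j.1 = ∅ then P α (-N, if j.2 then -y else y) else if j.1 = Finset.univ then
      P α (N, if j.2 then -y else y) else wT j.1 j.2 with hw
  have e1 : ∀ b, w (∅, b) = P α (-N, if b then -y else y) := fun b => by rw [hw]; simp
  have e2 : ∀ b, w (Finset.univ, b) = P α (N, if b then -y else y) := fun b => by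
    rw [hw]; simp only [if_neg hne, if_true]
  refine Ill.of_pairs w fun x hx => ?_
  rcases types h.card x with h3 | h3 | h3 | ⟨T, hT0, hT, h4, h5, h6⟩
  · obtain ⟨b, hb⟩ := haxis x hx
    refine ⟨(∅, b), ?_⟩
    rw [e1]
    exact h.blockTop hx h3 hR (by linarith) hb
  · obtain ⟨b, hb⟩ := haxis x hx
    refine ⟨(Finset.univ, b), ?_⟩
    rw [e2]
    set ε : ℝ := if b then -y else y with hε
    have h7 := h.neg.blockTop (x := -x) (by rw [mem_ng, neg_neg]; exact hx) (fun a => by
      simp only [Pi.neg_apply]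
      linarith [h3 a]) hRn (M := 2 * R + 1) (ε := -ε) (by linarith) (by
      rw [int_ng, ← map_neg]
      simp only [Pi.neg_apply, Finset.sum_neg_distrib, Prod.neg_mk, neg_zero, neg_add_rev, neg_neg]
      rw [add_comm]
      exact hb)
    have h8 := Co_ng h7
    have h9 : -P α (-(Fintype.card α * (2 * R + 1)), -ε) = P α (N, ε) := by
      rw [← map_neg]
      congr 1
      ext
      · simp [hN]
      · simp
    rw [h9] at h8
    exact h8
  · obtain ⟨b, hb⟩ := haxis x hx
    refine ⟨(∅, b), ?_⟩
    rw [e1]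
    have h7 : P α (0, ∑ i, x i) ∈ K := h.avg_c hx
    have h8 := h.constTop h7 (hPQ.neg _ (hl.lo x hx) (hl.hi x hx)) hN0 hb
    rw [← h3] at h8
    exact h8
  · obtain ⟨b, hb⟩ := hwT T hT0 hT x hx h4 h5 h6
    refine ⟨(T, b), ?_⟩
    have h7 : T ≠ ∅ := by rintro rfl; simp at hT0
    have h8 : T ≠ Finset.univ := by rintro rfl; simp at hT
    rw [hw]
    simp only [if_neg h7, if_neg h8]
    exact hb

/-- **Permutation invariant convex bodies are illuminated by `2 ^ n` directions.** -/
theorem PBody.ill (h : PBody K) : Ill K := by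
  obtain ⟨L, H, hl⟩ := h.lev
  by_cases hJL : ∃ A : ℝ, A ≠ 0 ∧ (A, L) ∈ Qs K
  · by_cases hJH : ∃ A : ℝ, A ≠ 0 ∧ (A, H) ∈ Qs K
    · by_cases hTop : ∀ z ∈ K, ∑ i, z i = H → Co K z (P α (0, -1))
      · by_cases hBot : ∀ z ∈ K, ∑ i, z i = L → Co K z (P α (0, 1))
        · exact h.vertical hl hTop hBot
        · refine Ill.of_ng (h.neg.general hl.neg ?_ ?_ ?_)
          · obtain ⟨A, hA, h1⟩ := hJH
            exact ⟨-A, neg_ne_zero.2 hA, by rw [mem_Qs_ng]; simpa using h1⟩
          · obtain ⟨A, hA, h1⟩ := hJL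
            exact ⟨-A, neg_ne_zero.2 hA, by rw [mem_Qs_ng]; simpa using h1⟩
          · intro hcon
            refine hBot fun z hz hzL => ?_
            have h1 := hcon (-z) (by rw [mem_ng, neg_neg]; exact hz) (by
              simp only [Pi.neg_apply, Finset.sum_neg_distrib]
              rw [hzL])
            have h2 := Co_ng h1
            have h3 : -P α (0, -1) = P α (0, 1) := by
              rw [← map_neg]
              congr 1
              ext <;> simp
            rwa [h3] at h2
      · exact h.general hl hJL hJH hTop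
    · refine Ill.of_ng (h.neg.lowApex hl.neg fun A hA => ?_)
      rw [mem_Qs_ng] at hA
      by_contra hcon
      refine hJH ⟨-A, neg_ne_zero.2 hcon, ?_⟩
      simpa using hA
  · refine h.lowApex hl fun A hA => ?_
    by_contra hcon
    exact hJL ⟨A, hcon, hA⟩

/-- The covering. -/
theorem PBody.cover (h : PBody K) :
    ∃ D : Finset (Option α → ℝ), D.card ≤ 2 ^ (Fintype.card α + 1) ∧
      ∀ x ∈ K, ∃ v ∈ D, x - v ∈ interior K := by
  classical
  obtain ⟨D, hD, h1⟩ := h.ill
  obtain ⟨r, hr, h2⟩ := unif h.conv h.comp subset_rfl (fun v : D => (v : Option α → ℝ))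
    (fun x hx => by
      obtain ⟨v, hv, h3⟩ := h1 x hx
      exact ⟨⟨v, hv⟩, h3⟩)
  refine ⟨D.image (fun v => -(r • v)), Finset.card_image_le.trans hD, fun x hx => ?_⟩
  obtain ⟨v, hv⟩ := h2 x hx
  refine ⟨-(r • (v : Option α → ℝ)), Finset.mem_image_of_mem _ v.2, ?_⟩
  rw [sub_neg_eq_add]
  exact hv

end Pool.Agent.K3h51.PI
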