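import Mathlib
import Pool.Agent.K3h51.PI.Final

set_option autoImplicit false
set_option maxHeartbeats 1000000

/-!
# Convex bodies whose symmetries induce all permutations of a spanning family

`cover_basis`: the theorem for the permutations of a basis of a real vector space of dimension
`n ≥ 2`. `cover_span`: the theorem for a spanning family. Such a family is a basis, or it has
`n + 1` members with the only relation that their sum is zero. In the second case the prism
`K × [-1, 1]` is invariant under the permutations of a basis, and the translates which meet its top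
and the translates which meet its bottom are different.
-/

open Set Topology

namespace Pool.Agent.K3h51.PI

variable {E : Type*} [NormedAddCommGroup E] [NormedSpace ℝ E]

theorem cover_basis {n : ℕ} (hn : 2 ≤ n) (K : Set E) (hK : Convex ℝ K) (hKc : IsCompact K)
    (hKi : (interior K).Nonempty) (b : Module.Basis (Fin n) ℝ E)
    (hperm : ∀ σ : Equiv.Perm (Fin n), ∀ x ∈ K, ∑ i, b.repr x i • b (σ i) ∈ K) :
    ∃ T : Finset E, T.card ≤ 2 ^ n ∧ ∀ x ∈ K, ∃ t ∈ T, x - t ∈ interior K := by
  classical
  obtain ⟨d, rfl⟩ : ∃ d, n = d + 1 := ⟨n - 1, by omega⟩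
  set e : Option (Fin d) ≃ Fin (d + 1) := (finSuccEquiv d).symm with he
  set b' : Module.Basis (Option (Fin d)) ℝ E := b.reindex e.symm with hb'
  set Φ : (Option (Fin d) → ℝ) ≃L[ℝ] E := b'.equivFun.symm.toContinuousLinearEquiv with hΦ
  have hΦx : ∀ x, Φ x = ∑ i, x i • b' i := by
    intro x
    rw [hΦ]
    simp only [LinearEquiv.coe_toContinuousLinearEquiv']
    exact b'.equivFun_symm_apply x
  have hb'i : ∀ i, b' i = b (e i) := by
    intro i
    rw [hb', Module.Basis.reindex_apply, Equiv.symm_symm]
  have hpre : Φ ⁻¹' K = Φ.toHomeomorph ⁻¹' K := rfl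
  have hbody : PBody (Φ ⁻¹' K) := by
    refine ⟨?_, ?_, ?_, ?_, ?_⟩
    · exact hK.linear_preimage Φ.toLinearEquiv.toLinearMap
    · rw [hpre, ← Homeomorph.image_symm]
      exact hKc.image (Homeomorph.continuous _)
    · obtain ⟨y, hy⟩ := hKi
      refine ⟨Φ.symm y, ?_⟩
      rw [hpre, ← Homeomorph.preimage_interior]
      show Φ (Φ.symm y) ∈ interior K
      rwa [ContinuousLinearEquiv.apply_symm_apply]
    · intro σ x hx
      show Φ (fun i => x (σ i)) ∈ K
      have h1 := hperm (e.permCongr σ⁻¹) (Φ x) hx
      have h2 : ∀ i, b.repr (Φ x) (e i) = x i := by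
        intro i
        have h3 : b'.repr (Φ x) i = x i := by
          have h4 : b'.equivFun (Φ x) = x := b'.equivFun.apply_symm_apply x
          have h5 := congrFun h4 i
          rwa [Module.Basis.equivFun_apply] at h5
        rw [← h3, hb', Module.Basis.repr_reindex_apply, Equiv.symm_symm]
      rw [← Equiv.sum_comp e] at h1
      rw [hΦx, ← Equiv.sum_comp σ⁻¹]
      convert h1 using 2 with i
      rw [h2, hb'i]
      simp [Equiv.permCongr_apply]
    · rw [Fintype.card_fin]
      omega
  obtain ⟨D, hD, hv⟩ := hbody.cover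
  refine ⟨D.image Φ, ?_, ?_⟩
  · refine Finset.card_image_le.trans (hD.trans ?_)
    rw [Fintype.card_fin]
  · intro x hx
    obtain ⟨v, hvD, hj⟩ := hv (Φ.symm x) (by
      show Φ (Φ.symm x) ∈ K
      rwa [ContinuousLinearEquiv.apply_symm_apply])
    rw [hpre, ← Homeomorph.preimage_interior] at hj
    have h4 : Φ (Φ.symm x - v) ∈ interior K := hj
    rw [map_sub, ContinuousLinearEquiv.apply_symm_apply] at h4
    exact ⟨Φ v, Finset.mem_image_of_mem _ hvD, h4⟩

/-- the permutations act through linear maps -/
theorem cover_basis' {n : ℕ} (hn : 2 ≤ n) (K : Set E) (hK : Convex ℝ K) (hKc : IsCompact K)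
    (hKi : (interior K).Nonempty) (b : Module.Basis (Fin n) ℝ E)
    (hperm : ∀ σ : Equiv.Perm (Fin n), ∃ A : E →ₗ[ℝ] E, (∀ i, A (b i) = b (σ i)) ∧
      ∀ x ∈ K, A x ∈ K) :
    ∃ T : Finset E, T.card ≤ 2 ^ n ∧ ∀ x ∈ K, ∃ t ∈ T, x - t ∈ interior K := by
  refine cover_basis hn K hK hKc hKi b fun σ x hx => ?_
  obtain ⟨A, hA, hAK⟩ := hperm σ
  have h1 : ∑ i, b.repr x i • b (σ i) = A x := by
    conv_rhs => rw [← b.sum_repr x]
    rw [map_sum]
    refine Finset.sum_congr rfl fun i _ => ?_
    rw [map_smul, hA]
  rw [h1]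
  exact hAK x hx

theorem cover_span {n : ℕ} (hn : 2 ≤ n) (hE : Module.finrank ℝ E = n) (K : Set E)
    (hK : Convex ℝ K) (hKc : IsCompact K) (hKi : (interior K).Nonempty) {N : ℕ} (v : Fin N → E)
    (hv : Submodule.span ℝ (Set.range v) = ⊤)
    (hperm : ∀ σ : Equiv.Perm (Fin N), ∃ A : E →ₗ[ℝ] E, (∀ i, A (v i) = v (σ i)) ∧
      ∀ x ∈ K, A x ∈ K) :
    ∃ T : Finset E, T.card ≤ 2 ^ n ∧ ∀ x ∈ K, ∃ t ∈ T, x - t ∈ interior K := by
  classical
  by_cases hli : LinearIndependent ℝ v
  · set b : Module.Basis (Fin N) ℝ E := Module.Basis.mk hli hv.ge with hb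
    have hbi : ∀ i, b i = v i := fun i => by rw [hb, Module.Basis.mk_apply]
    have hN : n = N := by
      rw [← hE, Module.finrank_eq_card_basis b, Fintype.card_fin]
    subst hN
    refine cover_basis' hn K hK hKc hKi b fun σ => ?_
    obtain ⟨A, hA, hAK⟩ := hperm σ
    exact ⟨A, fun i => by rw [hbi, hbi, hA], hAK⟩
  · -- the vectors are different
    have hdist : ∀ i j, i ≠ j → v i ≠ v j := by
      intro i j hij hvij
      have hall : ∀ k, v k = v i := by
        intro k
        by_cases hki : k = i
        · rw [hki]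
        · obtain ⟨A, hA, _⟩ := hperm (Equiv.swap j k)
          have h1 := hA i
          have h2 := hA j
          rw [Equiv.swap_apply_of_ne_of_ne hij (Ne.symm hki)] at h1
          rw [Equiv.swap_apply_left] at h2
          rw [← h2, ← hvij, h1]
      have h3 : Set.range v = {v i} := by
        ext x
        constructor
        · rintro ⟨k, rfl⟩
          exact hall k
        · intro hx
          exact ⟨i, (Set.mem_singleton_iff.1 hx).symm⟩
      rw [h3] at hv
      have h4 : Module.finrank ℝ E ≤ 1 := by
        rw [← finrank_top ℝ E, ← hv]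
        refine (finrank_span_le_card ({v i} : Set E)).trans ?_
        simp
      omega
    -- all relations are multiples of the sum
    have hrel : ∀ g : Fin N → ℝ, ∑ i, g i • v i = 0 → ∀ i j, g i = g j := by
      intro g hg i j
      by_contra hne
      have hij : i ≠ j := by rintro rfl; exact hne rfl
      obtain ⟨A, hA, _⟩ := hperm (Equiv.swap i j)
      have h1 : ∑ k, g k • v (Equiv.swap i j k) = 0 := by
        have h2 : A (∑ k, g k • v k) = 0 := by rw [hg, map_zero]
        rw [map_sum] at h2
        rw [← h2]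
        refine Finset.sum_congr rfl fun k _ => ?_
        rw [map_smul, hA]
      have h2 : ∑ k, g k • (v k - v (Equiv.swap i j k)) = 0 := by
        simp only [smul_sub, Finset.sum_sub_distrib]
        rw [hg, h1, sub_zero]
      have h3 : ∑ k, g k • (v k - v (Equiv.swap i j k)) =
          g i • (v i - v j) + g j • (v j - v i) := by
        rw [← Finset.add_sum_erase _ _ (Finset.mem_univ i),
          ← Finset.add_sum_erase _ _ (Finset.mem_erase.2 ⟨hij.symm, Finset.mem_univ j⟩),
          Equiv.swap_apply_left, Equiv.swap_apply_right, ← add_assoc]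
        rw [Finset.sum_eq_zero, add_zero]
        intro k hk
        rw [Finset.mem_erase, Finset.mem_erase] at hk
        rw [Equiv.swap_apply_of_ne_of_ne hk.2.1 hk.1, sub_self, smul_zero]
      rw [h3] at h2
      have h4 : (g i - g j) • (v i - v j) = 0 := by
        rw [← h2]
        module
      rcases smul_eq_zero.1 h4 with h5 | h5
      · exact hne (sub_eq_zero.1 h5)
      · exact hdist i j hij (sub_eq_zero.1 h5)
    obtain ⟨g, hg, i0, hgi0⟩ : ∃ g : Fin N → ℝ, ∑ i, g i • v i = 0 ∧ ∃ i, g i ≠ 0 := by
      rw [Fintype.linearIndependent_iff] at hli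
      push Not at hli
      exact hli
    have hsum : ∑ i, v i = 0 := by
      have h1 : ∑ i, g i • v i = g i0 • ∑ i, v i := by
        rw [Finset.smul_sum]
        exact Finset.sum_congr rfl fun i _ => by rw [hrel g hg i i0]
      rw [h1] at hg
      exact (smul_eq_zero.1 hg).resolve_left hgi0
    have hN0 : (0 : ℝ) < N := by
      have : 0 < N := Fin.pos i0
      exact_mod_cast this
    -- the prism
    set v' : Fin N → E × ℝ := fun i => (v i, 1) with hv'
    have hsumv' : ∀ g : Fin N → ℝ, ∑ i, g i • v' i = (∑ i, g i • v i, ∑ i, g i) := by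
      intro g
      rw [Prod.ext_iff]
      constructor
      · rw [Prod.fst_sum]
        rfl
      · rw [Prod.snd_sum]
        simp [hv']
    have hli' : LinearIndependent ℝ v' := by
      rw [Fintype.linearIndependent_iff]
      intro g hg i
      rw [hsumv', Prod.mk_eq_zero] at hg
      have h1 := hrel g hg.1
      have h2 : ∑ j, g j = N * g i := by
        rw [Finset.sum_congr rfl (fun j _ => h1 j i), Finset.sum_const, Finset.card_univ,
          Fintype.card_fin, nsmul_eq_mul]
      rw [hg.2] at h2
      rcases mul_eq_zero.1 h2.symm with h3 | h3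
      · exact absurd h3 hN0.ne'
      · exact h3
    have hspan' : (⊤ : Submodule ℝ (E × ℝ)) ≤ Submodule.span ℝ (Set.range v') := by
      have hvert : ((0 : E), (1 : ℝ)) ∈ Submodule.span ℝ (Set.range v') := by
        have h1 : ∑ i, (1 / (N : ℝ)) • v' i ∈ Submodule.span ℝ (Set.range v') :=
          Submodule.sum_mem _ fun i _ => Submodule.smul_mem _ _
            (Submodule.subset_span (Set.mem_range_self i))
        rw [hsumv' (fun _ => 1 / (N : ℝ)), ← Finset.smul_sum, hsum, smul_zero, Finset.sum_const,
          Finset.card_univ, Fintype.card_fin, nsmul_eq_mul, mul_one_div_cancel hN0.ne'] at h1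
        exact h1
      rintro ⟨x, t⟩ _
      have hx : x ∈ Submodule.span ℝ (Set.range v) := by rw [hv]; exact Submodule.mem_top
      rw [Submodule.mem_span_range_iff_exists_fun] at hx
      obtain ⟨c, hc⟩ := hx
      have h1 : ∑ i, c i • v' i ∈ Submodule.span ℝ (Set.range v') :=
        Submodule.sum_mem _ fun i _ => Submodule.smul_mem _ _
          (Submodule.subset_span (Set.mem_range_self i))
      rw [hsumv', hc] at h1
      have h2 := Submodule.add_mem _ h1 (Submodule.smul_mem _ (t - ∑ i, c i) hvert)
      have h3 : ((x, ∑ i, c i) : E × ℝ) + (t - ∑ i, c i) • ((0 : E), (1 : ℝ)) = (x, t) := by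
        ext
        · simp
        · simp
      rwa [h3] at h2
    set b' : Module.Basis (Fin N) ℝ (E × ℝ) := Module.Basis.mk hli' hspan' with hb'
    have hbi' : ∀ i, b' i = (v i, 1) := fun i => by rw [hb', Module.Basis.mk_apply]
    have : FiniteDimensional ℝ E := Module.finite_of_finrank_pos (by omega)
    have hN : N = n + 1 := by
      have h1 := Module.finrank_eq_card_basis b'
      rw [Fintype.card_fin, Module.finrank_prod, hE, Module.finrank_self] at h1
      exact h1.symm
    subst hN
    have hint : interior (K ×ˢ Set.Icc (-1 : ℝ) 1) = interior K ×ˢ Set.Ioo (-1 : ℝ) 1 := by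
      rw [interior_prod_eq, interior_Icc]
    obtain ⟨T, hT, hcov⟩ := cover_basis' (E := E × ℝ) (n := n + 1) (by omega)
      (K ×ˢ Set.Icc (-1 : ℝ) 1) (hK.prod (convex_Icc _ _)) (hKc.prod isCompact_Icc) (by
        obtain ⟨y, hy⟩ := hKi
        rw [hint]
        exact ⟨(y, 0), hy, by norm_num⟩) b' (by
        intro σ
        obtain ⟨A, hA, hAK⟩ := hperm σ
        refine ⟨A.prodMap LinearMap.id, fun i => ?_, ?_⟩
        · rw [hbi', hbi']
          simp [hA]
        · rintro ⟨x, t⟩ ⟨hx, ht⟩
          exact ⟨hAK x hx, ht⟩)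
    -- the two halves
    set T1 : Finset (E × ℝ) := T.filter (fun t => 0 < t.2) with hT1
    set T2 : Finset (E × ℝ) := T.filter (fun t => t.2 < 0) with hT2
    have hdisj : Disjoint T1 T2 := by
      rw [Finset.disjoint_left]
      intro t h1 h2
      rw [hT1, Finset.mem_filter] at h1
      rw [hT2, Finset.mem_filter] at h2
      linarith [h1.2, h2.2]
    have hcard : T1.card + T2.card ≤ 2 ^ (n + 1) := by
      rw [← Finset.card_union_of_disjoint hdisj]
      refine (Finset.card_le_card ?_).trans hT
      exact Finset.union_subset (Finset.filter_subset _ _) (Finset.filter_subset _ _)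
    have hup : ∀ x ∈ K, ∃ t ∈ T1.image Prod.fst, x - t ∈ interior K := by
      intro x hx
      obtain ⟨t, ht, h1⟩ := hcov (x, 1) ⟨hx, by norm_num⟩
      rw [hint] at h1
      obtain ⟨h2, h3⟩ := h1
      simp only [Prod.fst_sub, Prod.snd_sub, Set.mem_Ioo] at h2 h3
      exact ⟨t.1, Finset.mem_image_of_mem _ (by
        rw [hT1, Finset.mem_filter]
        exact ⟨ht, by linarith [h3.2]⟩), h2⟩
    have hdn : ∀ x ∈ K, ∃ t ∈ T2.image Prod.fst, x - t ∈ interior K := by
      intro x hx
      obtain ⟨t, ht, h1⟩ := hcov (x, -1) ⟨hx, by norm_num⟩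
      rw [hint] at h1
      obtain ⟨h2, h3⟩ := h1
      simp only [Prod.fst_sub, Prod.snd_sub, Set.mem_Ioo] at h2 h3
      exact ⟨t.1, Finset.mem_image_of_mem _ (by
        rw [hT2, Finset.mem_filter]
        exact ⟨ht, by linarith [h3.1]⟩), h2⟩
    rw [pow_succ] at hcard
    rcases le_total T1.card T2.card with h1 | h1
    · exact ⟨T1.image Prod.fst, Finset.card_image_le.trans (by omega), hup⟩
    · exact ⟨T2.image Prod.fst, Finset.card_image_le.trans (by omega), hdn⟩

end Pool.Agent.K3h51.PI
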